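import Pool.Agent.Q54.GG.Main

/-!
# The finite Goldbach graphs are covered by boundedly many balls of radius four, up to few vertices

There is an absolute constant `K` such that for every `A` and all large `n` the following holds for
the finite Goldbach graph `G_n` and for the finite near Goldbach graph `G(n)`. There is a set `E` of
at most `n / (log n) ^ A` vertices such that

* among any `K + 1` vertices outside `E` there are two which are joined by a path of length at most
  four;
* there are at most `K` vertices such that every vertex outside `E` is joined to one of them by a path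
  of length at most four;
* at most `K` connected components of the graph contain a vertex outside `E`.

Proof. Write the vertices as `2 x`. For almost all `x` there are about as many `y ≤ Y`,
`Y = n / (log n) ^ B`, for which `x + y` and `x - y` are primes as expected, and for almost all `y ≤ Y`
there are about as many `z ≤ n` for which `z + y` and `z - y` are primes as expected. (Both are theorems
on almost all sums and differences of two primes.) By Cauchy's inequality and an upper bound for the
number of `y` for which `x ± y`, `z ± y` are primes (fundamental lemma of the sieve), averaged over `z`,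
at least `c n` numbers `z` are reached from `x` in two steps, with an absolute constant `c > 0`.
-/

set_option autoImplicit false

namespace Pool.Agent.Results.MP_443e5f_co.BoundedlyManyBalls

/-- `m` is an odd prime less than `2 n` -/
def OddPrimeBelow (n m : ℕ) : Prop := m.Prime ∧ Odd m ∧ m < 2 * n

/-- The finite Goldbach graph `G_n`: the vertices are `0, 2, 4, …, 2n`, and distinct vertices `a`, `b` are
adjacent if and only if `(a + b) / 2` and `|a - b| / 2` are both odd primes less than `2 n`. -/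
def goldbachGraph (n : ℕ) : SimpleGraph {a : ℕ // Even a ∧ a ≤ 2 * n} where
  Adj a b := a ≠ b ∧ OddPrimeBelow n ((a.1 + b.1) / 2) ∧ OddPrimeBelow n (((a.1 : ℤ) - b.1).natAbs / 2)
  symm := ⟨fun a b h => by
    refine ⟨h.1.symm, ?_, ?_⟩
    · rw [add_comm]; exact h.2.1
    · rw [← Int.natAbs_neg, neg_sub]; exact h.2.2⟩
  loopless := ⟨fun _ h => h.1 rfl⟩

/-- The finite near Goldbach graph `G(n)`: the vertices are `2, 4, …, 2n`, and distinct vertices `a`, `b`
are adjacent if and only if `(a + b) / 2` and `|a - b| / 2` are both `1` or odd primes less than `2 n`. -/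
def nearGoldbachGraph (n : ℕ) : SimpleGraph {a : ℕ // Even a ∧ 2 ≤ a ∧ a ≤ 2 * n} where
  Adj a b := a ≠ b ∧ ((a.1 + b.1) / 2 = 1 ∨ OddPrimeBelow n ((a.1 + b.1) / 2)) ∧
    (((a.1 : ℤ) - b.1).natAbs / 2 = 1 ∨ OddPrimeBelow n (((a.1 : ℤ) - b.1).natAbs / 2))
  symm := ⟨fun a b h => by
    refine ⟨h.1.symm, ?_, ?_⟩
    · rw [add_comm]; exact h.2.1
    · rw [← Int.natAbs_neg, neg_sub]; exact h.2.2⟩
  loopless := ⟨fun _ h => h.1 rfl⟩

/-- There is a set `E` of at most `e` vertices such that (1) among any `K + 1` vertices outside `E` there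
are two which are joined by a path of length at most four, (2) there are at most `K` vertices such that
every vertex outside `E` is joined to one of them by a path of length at most four, and (3) at most `K`
connected components contain a vertex outside `E`. -/
def FewBalls {V : Type} (G : SimpleGraph V) (K : ℕ) (e : ℝ) : Prop :=
  ∃ E : Finset V, (E.card : ℝ) ≤ e ∧
    (∀ S : Finset V, (∀ v ∈ S, v ∉ E) → K < S.card →
      ∃ v ∈ S, ∃ w ∈ S, v ≠ w ∧ ∃ p : G.Walk v w, p.length ≤ 4) ∧
    (∃ C : Finset V, C.card ≤ K ∧ ∀ v, v ∉ E → ∃ c ∈ C, ∃ p : G.Walk v c, p.length ≤ 4) ∧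
    {c : G.ConnectedComponent | ∃ v, v ∉ E ∧ G.connectedComponentMk v = c}.Finite ∧
    {c : G.ConnectedComponent | ∃ v, v ∉ E ∧ G.connectedComponentMk v = c}.ncard ≤ K

open Pool.Agent.Q54.GG Finset

theorem few_of {V : Type} (G : SimpleGraph V) (n : ℕ) (val : V → ℕ) (hinj : Function.Injective val)
    (hle : ∀ v, val v ≤ n) (hsurj : ∀ x, 1 ≤ x → x ≤ n → ∃ v, val v = x)
    (hadj : ∀ v w, 1 ≤ val w → val w < val v → (val v + val w).Prime → (val v - val w).Prime → G.Adj v w)
    {c : ℝ} (K : ℕ) (hK : 1 < c * (K + 1)) (hn : 1 ≤ n) (E : Finset ℕ)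
    (hE : ∀ x : ℕ, x ≤ n → x ∉ E → 1 ≤ x ∧ c * n ≤ (Two n x).card) {e : ℝ} (he : (E.card : ℝ) ≤ e) :
    FewBalls G K e := by
  classical
  have hnr : (0 : ℝ) < n := by exact_mod_cast hn
  -- two vertices with intersecting second neighbourhoods
  have hwalk : ∀ v w : V, ∀ z : ℕ, z ∈ Two n (val v) → z ∈ Two n (val w) → ∃ p : G.Walk v w, p.length ≤ 4 := by
    intro v w z hv hw
    unfold Two at hv hw
    rw [mem_filter, mem_Icc] at hv hw
    obtain ⟨⟨hz1, hz2⟩, y, a1, a2, a3, a4, a5, a6, a7⟩ := hv
    obtain ⟨_, y', b1, b2, b3, b4, b5, b6, b7⟩ := hw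
    obtain ⟨vz, hvz⟩ := hsurj z hz1 hz2
    obtain ⟨vy, hvy⟩ := hsurj y a1 (by have := hle v; omega)
    obtain ⟨vy', hvy'⟩ := hsurj y' b1 (by have := hle w; omega)
    have e1 : G.Adj v vy := hadj _ _ (by omega) (by omega) (by rw [hvy]; exact a4) (by rw [hvy]; exact a5)
    have e2 : G.Adj vz vy := hadj _ _ (by omega) (by omega) (by rw [hvy, hvz]; exact a6)
      (by rw [hvy, hvz]; exact a7)
    have e3 : G.Adj w vy' := hadj _ _ (by omega) (by omega) (by rw [hvy']; exact b4) (by rw [hvy']; exact b5)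
    have e4 : G.Adj vz vy' := hadj _ _ (by omega) (by omega) (by rw [hvy', hvz]; exact b6)
      (by rw [hvy', hvz]; exact b7)
    exact ⟨.cons e1 (.cons e2.symm (.cons e4 (.cons e3.symm .nil))), by simp⟩
  obtain ⟨E', hE'⟩ : ∃ E' : Finset V, E' = E.preimage val hinj.injOn := ⟨_, rfl⟩
  have hmem : ∀ v, v ∉ E' → val v ∉ E := by
    intro v hv h
    exact hv (by rw [hE', mem_preimage]; exact h)
  have hpack : ∀ S : Finset V, (∀ v ∈ S, v ∉ E') → K < S.card →
      ∃ v ∈ S, ∃ w ∈ S, v ≠ w ∧ ∃ p : G.Walk v w, p.length ≤ 4 := by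
    intro S hS hKS
    by_contra hcon
    push Not at hcon
    have hdisj : ∀ v ∈ S, ∀ w ∈ S, v ≠ w → Disjoint (Two n (val v)) (Two n (val w)) := by
      intro v hv w hw hvw
      rw [disjoint_left]
      intro z hz hz'
      obtain ⟨p, hp⟩ := hwalk v w z hz hz'
      have := hcon v hv w hw hvw p
      omega
    have h1 : (S.biUnion fun v => Two n (val v)).card = ∑ v ∈ S, (Two n (val v)).card :=
      card_biUnion (fun v hv w hw hvw => hdisj v hv w hw hvw)
    have h2 : (S.biUnion fun v => Two n (val v)).card ≤ n := by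
      have h3 : (S.biUnion fun v => Two n (val v)) ⊆ Icc 1 n := by
        intro z hz
        rw [mem_biUnion] at hz
        obtain ⟨v, _, hz⟩ := hz
        unfold Two at hz
        exact (mem_filter.1 hz).1
      refine (card_le_card h3).trans ?_
      rw [Nat.card_Icc]; omega
    have h4 : (S.card : ℝ) * (c * n) ≤ n := by
      have h5 : S.card • (c * (n : ℝ)) ≤ ∑ v ∈ S, ((Two n (val v)).card : ℝ) :=
        card_nsmul_le_sum _ _ _ fun v hv => (hE (val v) (hle v) (hmem v (hS v hv))).2
      rw [nsmul_eq_mul] at h5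
      have h6 : ∑ v ∈ S, ((Two n (val v)).card : ℝ) ≤ n := by
        rw [h1] at h2
        exact_mod_cast h2
      linarith
    have h7 : (K : ℝ) + 1 ≤ S.card := by exact_mod_cast hKS
    have hc : 0 < c := by
      by_contra hc
      have : c * ((K : ℝ) + 1) ≤ 0 := mul_nonpos_of_nonpos_of_nonneg (not_lt.1 hc) (by positivity)
      linarith
    have h8 : ((K : ℝ) + 1) * (c * n) ≤ n := le_trans (mul_le_mul_of_nonneg_right h7 (by positivity)) h4
    nlinarith
  -- a maximal packing
  have hfin : ∃ M : ℕ, ∀ S : Finset V, S.card ≤ M := by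
    refine ⟨n + 1, fun S => ?_⟩
    have h1 : (S.image val).card = S.card := card_image_of_injective S hinj
    have h2 : S.image val ⊆ range (n + 1) := by
      intro x hx
      rw [mem_image] at hx
      obtain ⟨v, _, rfl⟩ := hx
      rw [mem_range]
      have := hle v
      omega
    have h3 := card_le_card h2
    rw [card_range] at h3
    omega
  obtain ⟨C, hC1, hC2, hC3⟩ : ∃ C : Finset V, (∀ v ∈ C, v ∉ E') ∧
      (∀ v ∈ C, ∀ w ∈ C, v ≠ w → ∀ p : G.Walk v w, 4 < p.length) ∧
      ∀ v, v ∉ E' → ∃ c ∈ C, ∃ p : G.Walk v c, p.length ≤ 4 := by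
    obtain ⟨M, hM⟩ := hfin
    obtain ⟨P, hP⟩ : ∃ P : ℕ → Prop, ∀ k, P k ↔ ∃ C : Finset V, C.card = k ∧ (∀ v ∈ C, v ∉ E') ∧
      (∀ v ∈ C, ∀ w ∈ C, v ≠ w → ∀ p : G.Walk v w, 4 < p.length) := ⟨_, fun _ => Iff.rfl⟩
    have hP0 : P 0 := (hP 0).2 ⟨∅, card_empty, fun v hv => absurd hv (notMem_empty _),
      fun v hv => absurd hv (notMem_empty _)⟩
    have hPM : ∀ k, P k → k ≤ M := by
      intro k hk
      obtain ⟨C, hC, _⟩ := (hP k).1 hk
      rw [← hC]; exact hM C
    obtain ⟨C, hCc, hC1, hC2⟩ := (hP _).1 (Nat.findGreatest_spec (P := P) (Nat.zero_le M) hP0)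
    refine ⟨C, hC1, hC2, fun v hv => ?_⟩
    by_cases hvC : v ∈ C
    · exact ⟨v, hvC, .nil, by simp⟩
    · by_contra hcon
      push Not at hcon
      have hnew : P (Nat.findGreatest P M + 1) := by
        refine (hP _).2 ⟨insert v C, by rw [card_insert_of_notMem hvC, hCc], ?_, ?_⟩
        · intro u hu
          rcases mem_insert.1 hu with rfl | hu
          · exact hv
          · exact hC1 u hu
        · intro u hu w hw huw p
          rcases mem_insert.1 hu with h1 | h1
          · rcases mem_insert.1 hw with h2 | h2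
            · exact absurd (h1.trans h2.symm) huw
            · subst h1
              exact hcon w h2 p
          · rcases mem_insert.1 hw with h2 | h2
            · subst h2
              have := hcon u h1 p.reverse
              rwa [SimpleGraph.Walk.length_reverse] at this
            · exact hC2 u h1 w h2 huw p
      have h3 := Nat.le_findGreatest (hPM _ hnew) hnew
      omega
  have hCK : C.card ≤ K := by
    by_contra hcon
    obtain ⟨v, hv, w, hw, hvw, p, hp⟩ := hpack C hC1 (by omega)
    have := hC2 v hv w hw hvw p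
    omega
  have hsub : {c : G.ConnectedComponent | ∃ v, v ∉ E' ∧ G.connectedComponentMk v = c} ⊆
      ((C.image G.connectedComponentMk : Finset G.ConnectedComponent) : Set G.ConnectedComponent) := by
    rintro _ ⟨v, hv, rfl⟩
    obtain ⟨c, hc, p, _⟩ := hC3 v hv
    rw [mem_coe, mem_image]
    exact ⟨c, hc, (SimpleGraph.ConnectedComponent.sound p.reachable).symm⟩
  refine ⟨E', ?_, hpack, ⟨C, hCK, hC3⟩, (Finset.finite_toSet _).subset hsub, ?_⟩
  · refine le_trans ?_ he
    have : E'.card ≤ E.card := by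
      rw [hE', ← card_image_of_injective _ hinj]
      apply card_le_card
      intro x hx
      rw [mem_image] at hx
      obtain ⟨v, hv, rfl⟩ := hx
      exact mem_preimage.1 hv
    exact_mod_cast this
  · refine (Set.ncard_le_ncard hsub (Finset.finite_toSet _)).trans ?_
    rw [Set.ncard_coe_finset]
    exact card_image_le.trans hCK

theorem odd_primes {n a b : ℕ} (ha : a ≤ n) (hb : 1 ≤ b) (hab : b < a) (h1 : (a + b).Prime)
    (h2 : (a - b).Prime) : OddPrimeBelow n ((2 * a + 2 * b) / 2) ∧
      OddPrimeBelow n ((((2 * a : ℕ) : ℤ) - ((2 * b : ℕ) : ℤ)).natAbs / 2) := by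
  have e1 : (2 * a + 2 * b) / 2 = a + b := by omega
  have e2 : (((2 * a : ℕ) : ℤ) - ((2 * b : ℕ) : ℤ)).natAbs / 2 = a - b := by omega
  rw [e1, e2]
  have ho : Odd (a + b) := by
    rcases h1.eq_two_or_odd' with h | h
    · omega
    · exact h
  have ho' : Odd (a - b) := by
    rw [Nat.odd_iff] at ho ⊢
    omega
  exact ⟨⟨h1, ho, by omega⟩, ⟨h2, ho', by omega⟩⟩

theorem result : ∃ K : ℕ, ∀ A : ℕ, ∃ N : ℕ, ∀ n : ℕ, N ≤ n →
    FewBalls (goldbachGraph n) K (n / Real.log n ^ A) ∧
    FewBalls (nearGoldbachGraph n) K (n / Real.log n ^ A) := by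
  obtain ⟨c, hc, hsec⟩ := second
  obtain ⟨K, hK⟩ : ∃ K : ℕ, 1 < c * (K + 1) := by
    obtain ⟨K, hK⟩ := exists_nat_gt (1 / c)
    refine ⟨K, ?_⟩
    rw [div_lt_iff₀ hc] at hK
    nlinarith
  refine ⟨K, fun A => ?_⟩
  obtain ⟨N, hN⟩ := hsec A
  refine ⟨N + 1, fun n hn => ?_⟩
  obtain ⟨E, hE1, hE2⟩ := hN n (by omega)
  constructor
  · refine few_of (goldbachGraph n) n (fun a => a.1 / 2) ?_ ?_ ?_ ?_ K hK (by omega) E hE2 hE1
    · rintro ⟨a, ⟨a', ha'⟩, _⟩ ⟨b, ⟨b', hb'⟩, _⟩ h
      simp only at h
      exact Subtype.ext (by simp only; omega)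
    · rintro ⟨a, ⟨a', ha'⟩, ha⟩
      simp only; omega
    · intro x h1 h2
      exact ⟨⟨2 * x, ⟨x, by ring⟩, by omega⟩, by simp⟩
    · rintro ⟨a, ⟨a', ha'⟩, ha⟩ ⟨b, ⟨b', hb'⟩, hb⟩ h1 h2 h3 h4
      simp only at h1 h2 h3 h4
      have ea : a = 2 * a' := by omega
      have eb : b = 2 * b' := by omega
      subst ea eb
      have e1 : 2 * a' / 2 = a' := by omega
      have e2 : 2 * b' / 2 = b' := by omega
      rw [e2] at h1
      rw [e1, e2] at h2 h3 h4
      have h5 := odd_primes (n := n) (by omega) h1 h2 h3 h4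
      refine ⟨fun h => ?_, h5.1, h5.2⟩
      have := congrArg Subtype.val h
      simp only at this
      omega
  · refine few_of (nearGoldbachGraph n) n (fun a => a.1 / 2) ?_ ?_ ?_ ?_ K hK (by omega) E hE2 hE1
    · rintro ⟨a, ⟨a', ha'⟩, _⟩ ⟨b, ⟨b', hb'⟩, _⟩ h
      simp only at h
      exact Subtype.ext (by simp only; omega)
    · rintro ⟨a, ⟨a', ha'⟩, ha⟩
      simp only; omega
    · intro x h1 h2
      exact ⟨⟨2 * x, ⟨x, by ring⟩, by omega, by omega⟩, by simp⟩
    · rintro ⟨a, ⟨a', ha'⟩, ha⟩ ⟨b, ⟨b', hb'⟩, hb⟩ h1 h2 h3 h4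
      simp only at h1 h2 h3 h4
      have ea : a = 2 * a' := by omega
      have eb : b = 2 * b' := by omega
      subst ea eb
      have e1 : 2 * a' / 2 = a' := by omega
      have e2 : 2 * b' / 2 = b' := by omega
      rw [e2] at h1
      rw [e1, e2] at h2 h3 h4
      have h5 := odd_primes (n := n) (by omega) h1 h2 h3 h4
      refine ⟨fun h => ?_, Or.inr h5.1, Or.inr h5.2⟩
      have := congrArg Subtype.val h
      simp only at this
      omega

end Pool.Agent.Results.MP_443e5f_co.BoundedlyManyBalls
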