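import Pool.Agent.Helper255.GG.CAsm

/-!
# Chen's theorem and the diameter of the Goldbach graphs

Relax the adjacency in the Goldbach graph `G_n` and in the near Goldbach graph `G(n)` as in the theorem of Chen:
one of the numbers `(a+b)/2`, `|a-b|/2` is an odd prime, the other one is odd and a product of at most two primes.
There is a constant `K` such that for every `n` these graphs have at most `K` components and each component has
diameter at most `11 K`; the graphs are covered by `K` balls of radius `5`.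

For every `x ≥ n/8` a positive proportion of the vertices has distance at most two from `2x`: Chen's theorem with
the right order of magnitude, uniformly in the even number `2x` (with the exact local factors), gives the number
of the paths, and an upper bound sieve the number of the common neighbours.  Chen's theorem for the differences,
uniformly in the difference `2x`, gives every small `x` an upper neighbour.  A maximal family of disjoint balls of
radius two has boundedly many members.
-/

set_option autoImplicit false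

open Finset

namespace Pool.Agent.Results.MP_443e5f_co.OnePrimeOneAlmostPrime

open Pool.Agent.Helper255.GG

/-- `m` is an odd prime less than `2n` -/
def OddPrime (n m : ℕ) : Prop := m.Prime ∧ m ≠ 2 ∧ m < 2 * n

/-- `m` is an odd prime or a product of two odd primes, less than `2n` -/
def OddP2 (n m : ℕ) : Prop := Odd m ∧ m < 2 * n ∧ (m.Prime ∨ ∃ p q : ℕ, p.Prime ∧ q.Prime ∧ m = p * q)

/-- the relaxed Goldbach graph on `{0, 2, …, 2n}`: one of `(a+b)/2`, `|a-b|/2` is an odd prime, the other one an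
odd prime or a product of two odd primes (all less than `2n`) -/
def gold2 (n : ℕ) : SimpleGraph {a : ℕ // Even a ∧ a ≤ 2 * n} where
  Adj a b := a ≠ b ∧
    (OddPrime n ((a.1 + b.1) / 2) ∧ OddP2 n (((a.1 : ℤ) - b.1).natAbs / 2) ∨
      OddP2 n ((a.1 + b.1) / 2) ∧ OddPrime n (((a.1 : ℤ) - b.1).natAbs / 2))
  symm := ⟨fun a b h => by
    rw [add_comm b.1 a.1, ← Int.natAbs_neg ((b.1 : ℤ) - a.1), neg_sub]
    exact ⟨h.1.symm, h.2⟩⟩
  loopless := ⟨fun _ h => h.1 rfl⟩

/-- the relaxed near Goldbach graph on `{2, 4, …, 2n}`: one of `(a+b)/2`, `|a-b|/2` is `1` or an odd prime, the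
other one is `1` or an odd prime or a product of two odd primes (all less than `2n` or equal to `1`) -/
def near2 (n : ℕ) : SimpleGraph {a : ℕ // Even a ∧ 2 ≤ a ∧ a ≤ 2 * n} where
  Adj a b := a ≠ b ∧
    (((a.1 + b.1) / 2 = 1 ∨ OddPrime n ((a.1 + b.1) / 2)) ∧
        (((a.1 : ℤ) - b.1).natAbs / 2 = 1 ∨ OddP2 n (((a.1 : ℤ) - b.1).natAbs / 2)) ∨
      ((a.1 + b.1) / 2 = 1 ∨ OddP2 n ((a.1 + b.1) / 2)) ∧
        (((a.1 : ℤ) - b.1).natAbs / 2 = 1 ∨ OddPrime n (((a.1 : ℤ) - b.1).natAbs / 2)))
  symm := ⟨fun a b h => by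
    rw [add_comm b.1 a.1, ← Int.natAbs_neg ((b.1 : ℤ) - a.1), neg_sub]
    exact ⟨h.1.symm, h.2⟩⟩
  loopless := ⟨fun _ h => h.1 rfl⟩

/-- `K` balls of radius `5` cover the graph, there are at most `K` components, and the distance of two vertices
of the same component is at most `11 K` -/
def Bounded {V : Type} (H : SimpleGraph V) (K : ℕ) : Prop :=
  (∃ S : Finset V, S.card ≤ K ∧ ∀ v : V, ∃ s ∈ S, H.edist v s ≤ 5) ∧
    (Finite H.ConnectedComponent ∧ Nat.card H.ConnectedComponent ≤ K) ∧
    ∀ u v : V, H.Reachable u v → H.dist u v ≤ 11 * K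

lemma reach_of_edist {V : Type} {H : SimpleGraph V} {u v : V} {k : ℕ} (h : H.edist u v ≤ k) : H.Reachable u v := by
  rw [← SimpleGraph.edist_ne_top_iff_reachable]
  intro h1
  rw [h1, top_le_iff] at h
  exact ENat.coe_ne_top k h

lemma dist_of_edist {V : Type} {H : SimpleGraph V} {u v : V} {k : ℕ} (h : H.edist u v ≤ k) : H.dist u v ≤ k := by
  have h1 := (reach_of_edist h).coe_dist_eq_edist
  rw [← h1] at h
  exact_mod_cast h

/-- a covering with balls -/
lemma bounded_of_cover {V : Type} (H : SimpleGraph V) (K : ℕ) (S : Finset V) (hS : S.card ≤ K)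
    (hc : ∀ v : V, ∃ s ∈ S, H.edist v s ≤ 5) : Bounded H K := by
  classical
  have h5 : (5 : ℕ∞) = ((5 : ℕ) : ℕ∞) := rfl
  refine ⟨⟨S, hS, hc⟩, ?_, ?_⟩
  · have hsurj : Function.Surjective (fun s : S => H.connectedComponentMk s.1) := by
      intro C
      induction C using SimpleGraph.ConnectedComponent.ind with
      | h v =>
        obtain ⟨s, hs, hd⟩ := hc v
        refine ⟨⟨s, hs⟩, ?_⟩
        rw [SimpleGraph.ConnectedComponent.eq]
        exact (reach_of_edist (h5 ▸ hd)).symm
    have hfin : Finite H.ConnectedComponent := Finite.of_surjective _ hsurj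
    refine ⟨hfin, ?_⟩
    have h1 := Nat.card_le_card_of_surjective _ hsurj
    have h2 : Nat.card S = S.card := by rw [Nat.card_eq_fintype_card, Fintype.card_coe]
    rw [h2] at h1
    exact h1.trans hS
  · intro u v huv
    obtain ⟨p, hp⟩ := huv.exists_walk_length_eq_dist
    by_contra hcon
    push Not at hcon
    choose g hg1 hg2 using hc
    have hmaps : ∀ i ∈ range (H.dist u v + 1), g (p.getVert i) ∈ S := fun i _ => hg1 _
    have hlt : S.card * 11 < (range (H.dist u v + 1)).card := by
      rw [card_range]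
      have : S.card * 11 ≤ 11 * K := by omega
      omega
    obtain ⟨s, hs, hfib⟩ := Finset.exists_lt_card_fiber_of_mul_lt_card_of_maps_to hmaps hlt
    set T := (range (H.dist u v + 1)).filter (fun i => g (p.getVert i) = s) with hT
    have hne : T.Nonempty := card_pos.1 (by omega)
    have hkey : ∀ i ∈ T, ∀ j ∈ T, i ≤ j → j ≤ i + 10 := by
      intro i hi j hj hij
      rw [hT, mem_filter, mem_range] at hi hj
      have d1 : H.dist (p.getVert i) s ≤ 5 := dist_of_edist (h5 ▸ (hi.2 ▸ hg2 (p.getVert i)))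
      have d2 : H.dist (p.getVert j) s ≤ 5 := dist_of_edist (h5 ▸ (hj.2 ▸ hg2 (p.getVert j)))
      have r1 : H.Reachable (p.getVert i) s := reach_of_edist (k := 5) (h5 ▸ (hi.2 ▸ hg2 (p.getVert i)))
      have r2 : H.Reachable (p.getVert j) s := reach_of_edist (k := 5) (h5 ▸ (hj.2 ▸ hg2 (p.getVert j)))
      -- shortest walks
      obtain ⟨q1, hq1⟩ := r1.exists_walk_length_eq_dist
      obtain ⟨q2, hq2⟩ := r2.exists_walk_length_eq_dist
      have hw := SimpleGraph.dist_le (((p.take i).append (q1.append q2.reverse)).append (p.drop j))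
      rw [SimpleGraph.Walk.length_append, SimpleGraph.Walk.length_append, SimpleGraph.Walk.length_append,
        SimpleGraph.Walk.length_reverse, SimpleGraph.Walk.take_length, SimpleGraph.Walk.drop_length, hq1, hq2, hp] at hw
      omega
    have hsub : T ⊆ Icc (T.min' hne) (T.min' hne + 10) := by
      intro j hj
      rw [mem_Icc]
      have h1 := T.min'_le j hj
      exact ⟨h1, hkey _ (T.min'_mem hne) j hj h1⟩
    have := card_le_card hsub
    rw [Nat.card_Icc] at this
    omega

/-- a maximal family of disjoint balls -/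
lemma greedy {V : Type} [Fintype V] (H : SimpleGraph V) (m : ℝ) (hm : 0 < m) (K : ℕ)
    (hK : (Fintype.card V : ℝ) < (K + 1) * m) :
    ∃ S : Finset V, S.card ≤ K ∧ ∀ v : V, m ≤ ({w | H.edist v w ≤ 2}.ncard : ℝ) → ∃ s ∈ S, H.edist v s ≤ 4 := by
  classical
  -- the balls
  obtain ⟨B, hB⟩ : ∃ B : V → Finset V, B = fun v => univ.filter (fun w => H.edist v w ≤ 2) := ⟨_, rfl⟩
  have hBn : ∀ v, {w | H.edist v w ≤ 2}.ncard = (B v).card := by
    intro v
    rw [hB, Set.ncard_eq_toFinset_card']
    congr 1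
    ext w
    simp
  obtain ⟨𝓕, h𝓕⟩ : ∃ 𝓕 : Finset (Finset V), 𝓕 = univ.filter (fun S : Finset V =>
      (∀ s ∈ S, m ≤ ((B s).card : ℝ)) ∧ (S : Set V).PairwiseDisjoint B) := ⟨_, rfl⟩
  have hne : 𝓕.Nonempty := ⟨∅, by rw [h𝓕]; simp⟩
  obtain ⟨S, hS, hmax⟩ := 𝓕.exists_max_image Finset.card hne
  have hS' := hS
  rw [h𝓕, mem_filter] at hS'
  obtain ⟨-, hS1, hS2⟩ := hS'
  refine ⟨S, ?_, ?_⟩
  · by_contra hcon
    push Not at hcon
    have h1 : (K : ℝ) + 1 ≤ S.card := by exact_mod_cast hcon
    have h2 : (S.card : ℝ) * m ≤ ∑ s ∈ S, ((B s).card : ℝ) := by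
      rw [← nsmul_eq_mul]
      exact card_nsmul_le_sum _ _ _ hS1
    have h3 : ∑ s ∈ S, ((B s).card : ℝ) ≤ Fintype.card V := by
      have h4 : ∑ s ∈ S, (B s).card = (S.biUnion B).card := (card_biUnion hS2).symm
      have h5 : (S.biUnion B).card ≤ Fintype.card V := card_le_univ _
      rw [← h4] at h5
      exact_mod_cast h5
    nlinarith
  · intro v hv
    rw [hBn] at hv
    by_contra hcon
    push Not at hcon
    have hvS : v ∉ S := by
      intro h
      have := hcon v h
      rw [SimpleGraph.edist_self] at this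
      exact absurd this (by simp)
    have hdis : ∀ s ∈ S, Disjoint (B v) (B s) := by
      intro s hs
      rw [Finset.disjoint_left]
      intro w hw1 hw2
      rw [hB] at hw1 hw2
      simp only [mem_filter, mem_univ, true_and] at hw1 hw2
      have h1 : H.edist v s ≤ H.edist v w + H.edist w s := SimpleGraph.edist_triangle
      have h2 : H.edist w s = H.edist s w := SimpleGraph.edist_comm
      have h3 : H.edist v s ≤ 2 + 2 := h1.trans (add_le_add hw1 (h2 ▸ hw2))
      have h4 := hcon s hs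
      have h5 : (2 : ℕ∞) + 2 = 4 := by norm_num
      rw [h5] at h3
      exact absurd h3 (not_le.2 h4)
    have hin : insert v S ∈ 𝓕 := by
      rw [h𝓕, mem_filter]
      refine ⟨mem_univ _, ?_, ?_⟩
      · intro s hs
        rw [mem_insert] at hs
        rcases hs with rfl | hs
        · exact hv
        · exact hS1 s hs
      · rw [coe_insert]
        rw [Set.pairwiseDisjoint_insert]
        refine ⟨hS2, fun s hs _ => hdis s hs⟩
    have := hmax _ hin
    rw [card_insert_of_notMem hvS] at this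
    omega

/-- covering of all vertices -/
lemma cover {V : Type} [Fintype V] (H : SimpleGraph V) (n : ℕ) (f : ℕ → V) (c : ℝ) (hc : 0 < c)
    (hn : 0 < n) (hinj : Set.InjOn f (Icc 1 n : Finset ℕ))
    (hadj : ∀ x ∈ Icc 1 n, ∀ y ∈ Icc 1 n, E3 n x y → H.Adj (f x) (f y)) (v₀ : V)
    (hsurj : ∀ v : V, v = v₀ ∨ ∃ x ∈ Icc 1 n, f x = v)
    (h : (∀ x : ℕ, n ≤ 8 * x → x ≤ n → c * n ≤ (T3 n x : ℝ)) ∧
      (∀ x : ℕ, 1 ≤ x → x ≤ n → n ≤ 8 * x ∨ ∃ y : ℕ, n / 2 < y ∧ y ≤ n ∧ E3 n y x))
    (hV : Fintype.card V ≤ n + 1) (K : ℕ) (hK : 2 / c ≤ K) : Bounded H (K + 1) := by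
  classical
  have hnr : (1 : ℝ) ≤ n := by exact_mod_cast hn
  have hball : ∀ x ∈ Icc 1 n, c * n ≤ (T3 n x : ℝ) → c * n ≤ ({w | H.edist (f x) w ≤ 2}.ncard : ℝ) := by
    intro x hx hT
    refine hT.trans ?_
    have h1 : T3 n x ≤ {w | H.edist (f x) w ≤ 2}.ncard := by
      unfold T3
      rw [← card_image_of_injOn (s := (Ico 1 x).filter (fun z => 0 < N3 n x z)) (f := f)]
      · rw [← Set.ncard_coe_finset]
        apply Set.ncard_le_ncard _ (Set.toFinite _)
        intro w hw
        simp only [coe_image, coe_filter, Set.mem_image, Set.mem_ofPred_eq, mem_Ico] at hw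
        obtain ⟨z, ⟨⟨hz1, hz2⟩, hz3⟩, rfl⟩ := hw
        unfold N3 at hz3
        rw [card_pos] at hz3
        obtain ⟨y, hy⟩ := hz3
        rw [mem_filter, mem_Ioo] at hy
        rw [mem_Icc] at hx
        have a1 := hadj x (mem_Icc.2 hx) y (mem_Icc.2 ⟨by omega, by omega⟩) hy.2.1
        have a2 := hadj y (mem_Icc.2 ⟨by omega, by omega⟩) z (mem_Icc.2 ⟨by omega, by omega⟩) hy.2.2
        show H.edist (f x) (f z) ≤ 2
        have := SimpleGraph.Walk.edist_le (SimpleGraph.Walk.cons a1 (SimpleGraph.Walk.cons a2 SimpleGraph.Walk.nil))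
        simpa using this
      · apply hinj.mono
        intro z hz
        rw [mem_Icc] at hx
        simp only [coe_filter, Set.mem_ofPred_eq, mem_Ico] at hz
        rw [mem_coe, mem_Icc]
        omega
    exact_mod_cast h1
  obtain ⟨S, hS1, hS2⟩ := greedy H (c * n) (by positivity) K (by
    have h1 : (Fintype.card V : ℝ) ≤ n + 1 := by exact_mod_cast hV
    rw [div_le_iff₀ hc] at hK
    have : (2 : ℝ) * n ≤ (K * c) * n := mul_le_mul_of_nonneg_right hK (by positivity)
    nlinarith [mul_pos hc (lt_of_lt_of_le zero_lt_one hnr)])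
  apply bounded_of_cover H (K + 1) (insert v₀ S)
  · exact (card_insert_le _ _).trans (by omega)
  intro v
  rcases hsurj v with rfl | ⟨x, hx, rfl⟩
  · exact ⟨v, mem_insert_self _ _, by rw [SimpleGraph.edist_self]; exact bot_le⟩
  · rw [mem_Icc] at hx
    rcases h.2 x hx.1 hx.2 with h1 | ⟨y, hy1, hy2, hyx⟩
    · obtain ⟨s, hs, hd⟩ := hS2 (f x) (hball x (mem_Icc.2 hx) (h.1 x h1 hx.2))
      exact ⟨s, mem_insert_of_mem hs, hd.trans (by norm_num)⟩
    · have hy : y ∈ Icc 1 n := mem_Icc.2 ⟨by omega, hy2⟩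
      obtain ⟨s, hs, hd⟩ := hS2 (f y) (hball y hy (h.1 y (by omega) hy2))
      refine ⟨s, mem_insert_of_mem hs, ?_⟩
      have a1 := (hadj y hy x (mem_Icc.2 hx) hyx).symm
      have a2 : H.edist (f x) (f y) ≤ 1 := by
        have := SimpleGraph.Walk.edist_le (SimpleGraph.Walk.cons a1 SimpleGraph.Walk.nil)
        simpa using this
      have a3 : H.edist (f x) s ≤ H.edist (f x) (f y) + H.edist (f y) s := SimpleGraph.edist_triangle
      have a4 : H.edist (f x) s ≤ 1 + 4 := a3.trans (add_le_add a2 hd)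
      have a5 : (1 : ℕ∞) + 4 = 5 := by norm_num
      rw [a5] at a4
      exact a4

/-- the edges -/
lemma E3_edge {n x y : ℕ} (hn : 1000 ≤ n) (hx : x ≤ n) (hy : 1 ≤ y) (h : E3 n x y) :
    OddP2 n (x + y) ∧ OddPrime n (x - y) := by
  obtain ⟨h1, h2, h3, h4⟩ := h
  have hodd : Odd (x + y) := by
    rw [← Nat.not_even_iff_odd]
    intro he
    have := rough_pow h4 Nat.prime_two (by exact_mod_cast he.two_dvd)
    omega
  refine ⟨⟨hodd, by omega, ?_⟩, h2, ?_, by omega⟩
  · have hlen := h4.2.1
    rw [Int.natAbs_natCast] at hlen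
    have hprod := Nat.prod_primeFactorsList (show x + y ≠ 0 by omega)
    obtain ⟨l, hl⟩ : ∃ l, l = (x + y).primeFactorsList := ⟨_, rfl⟩
    have hpr : ∀ p ∈ l, p.Prime := fun p hp => Nat.prime_of_mem_primeFactorsList (hl ▸ hp)
    rw [← hl] at hlen hprod
    match l, hlen, hprod, hpr with
    | [], _, hprod, _ =>
      rw [List.prod_nil] at hprod
      omega
    | [p], _, hprod, hpr =>
      left
      rw [List.prod_cons, List.prod_nil, mul_one] at hprod
      rw [← hprod]
      exact hpr p (by simp)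
    | [p, q], _, hprod, hpr =>
      right
      rw [List.prod_cons, List.prod_cons, List.prod_nil, mul_one] at hprod
      exact ⟨p, q, hpr p (by simp), hpr q (by simp), hprod.symm⟩
    | p :: q :: r :: t, hlen, _, _ =>
      simp only [List.length_cons] at hlen
      omega
  · intro h5
    rw [h5] at h3
    omega

/-- **Main theorem.** There is a constant `K` such that for every `n` both relaxed graphs are covered by `K` balls
of radius `5`, have at most `K` components, and all distances within the components are at most `11 K`. -/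
theorem result : ∃ K : ℕ, ∀ n : ℕ, Bounded (gold2 n) K ∧ Bounded (near2 n) K := by
  classical
  obtain ⟨c, hc, n₀, hn₀⟩ := chen_core
  obtain ⟨K1, hK1⟩ : ∃ K1, K1 = ⌈2 / c⌉₊ := ⟨_, rfl⟩
  have hKc : 2 / c ≤ K1 := by rw [hK1]; exact Nat.le_ceil _
  obtain ⟨K, hKd⟩ : ∃ K, K = max (K1 + 1) (max n₀ 1000 + 1) := ⟨_, rfl⟩
  -- monotonicity
  have hmono : ∀ {V : Type} (H : SimpleGraph V) (k : ℕ), Bounded H k → k ≤ K → Bounded H K := by
    intro V H k ⟨⟨S, hS, hc⟩, _, _⟩ hk
    exact bounded_of_cover H K S (hS.trans hk) hc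
  refine ⟨K, fun n => ?_⟩
  have hi1 : Function.Injective (fun a : {a : ℕ // Even a ∧ a ≤ 2 * n} => (⟨a.1 / 2, by have := a.2.2; omega⟩ : Fin (n + 1))) := by
    intro a b hab
    simp only [Fin.mk.injEq] at hab
    obtain ⟨k, hk⟩ := a.2.1
    obtain ⟨l, hl⟩ := b.2.1
    apply Subtype.ext
    omega
  have hi2 : Function.Injective (fun a : {a : ℕ // Even a ∧ 2 ≤ a ∧ a ≤ 2 * n} => (⟨a.1 / 2, by have := a.2.2.2; omega⟩ : Fin (n + 1))) := by
    intro a b hab
    simp only [Fin.mk.injEq] at hab
    obtain ⟨k, hk⟩ := a.2.1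
    obtain ⟨l, hl⟩ := b.2.1
    apply Subtype.ext
    omega
  have hfin1 : Finite {a : ℕ // Even a ∧ a ≤ 2 * n} := Finite.of_injective _ hi1
  have hfin2 : Finite {a : ℕ // Even a ∧ 2 ≤ a ∧ a ≤ 2 * n} := Finite.of_injective _ hi2
  have : Fintype {a : ℕ // Even a ∧ a ≤ 2 * n} := Fintype.ofFinite _
  have : Fintype {a : ℕ // Even a ∧ 2 ≤ a ∧ a ≤ 2 * n} := Fintype.ofFinite _
  have hc1 := Fintype.card_le_of_injective _ hi1
  have hc2 := Fintype.card_le_of_injective _ hi2
  rw [Fintype.card_fin] at hc1 hc2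
  rcases Nat.lt_or_ge n (max n₀ 1000) with hsmall | hlarge
  · -- few vertices
    have hK2 : max n₀ 1000 + 1 ≤ K := by rw [hKd]; exact le_max_right _ _
    constructor
    · apply bounded_of_cover _ K univ (by rw [card_univ]; omega)
      intro v
      exact ⟨v, mem_univ _, by rw [SimpleGraph.edist_self]; exact bot_le⟩
    · apply bounded_of_cover _ K univ (by rw [card_univ]; omega)
      intro v
      exact ⟨v, mem_univ _, by rw [SimpleGraph.edist_self]; exact bot_le⟩
  have hn1 : n₀ ≤ n := (le_max_left _ _).trans hlarge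
  have hn2 : 1000 ≤ n := (le_max_right _ _).trans hlarge
  have hmain := hn₀ n hn1
  have hK3 : K1 + 1 ≤ K := by rw [hKd]; exact le_max_left _ _
  constructor
  · let f : ℕ → {a : ℕ // Even a ∧ a ≤ 2 * n} := fun x => if h : x ≤ n then ⟨2 * x, ⟨x, by ring⟩, by omega⟩ else ⟨0, by decide, by omega⟩
    have hf : ∀ x, x ≤ n → (f x).1 = 2 * x := by
      intro x hx
      simp only [f]
      rw [dif_pos hx]
    apply hmono _ (K1 + 1) _ hK3
    refine cover (gold2 n) n f c hc (by omega) ?_ ?_ ⟨0, by decide, by omega⟩ ?_ hmain hc1 K1 hKc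
    · intro x hx y hy hxy
      rw [mem_coe, mem_Icc] at hx hy
      have := congrArg Subtype.val hxy
      rw [hf x hx.2, hf y hy.2] at this
      omega
    · intro x hx y hy hE
      rw [mem_Icc] at hx hy
      obtain ⟨o1, o2⟩ := E3_edge hn2 hx.2 hy.1 hE
      have h1 := hE.1
      have hfx := hf x hx.2
      have hfy := hf y hy.2
      refine ⟨fun h => ?_, Or.inr ⟨?_, ?_⟩⟩
      · rw [← h, hfx] at hfy
        omega
      · have e : ((f x).1 + (f y).1) / 2 = x + y := by omega
        rw [e]
        exact o1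
      · have e : (((f x).1 : ℤ) - (f y).1).natAbs / 2 = x - y := by omega
        rw [e]
        exact o2
    · intro v
      obtain ⟨k, hk⟩ := v.2.1
      have hk2 := v.2.2
      rcases Nat.eq_zero_or_pos k with h0 | h0
      · left
        apply Subtype.ext
        show v.1 = 0
        omega
      · right
        refine ⟨k, mem_Icc.2 ⟨by omega, by omega⟩, ?_⟩
        apply Subtype.ext
        rw [hf k (by omega)]
        omega
  · let f : ℕ → {a : ℕ // Even a ∧ 2 ≤ a ∧ a ≤ 2 * n} := fun x => if h : 1 ≤ x ∧ x ≤ n then ⟨2 * x, ⟨x, by ring⟩, by omega, by omega⟩ else ⟨2, by decide, by omega, by omega⟩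
    have hf : ∀ x, 1 ≤ x → x ≤ n → (f x).1 = 2 * x := by
      intro x hx hx'
      simp only [f]
      rw [dif_pos ⟨hx, hx'⟩]
    apply hmono _ (K1 + 1) _ hK3
    refine cover (near2 n) n f c hc (by omega) ?_ ?_ ⟨2, by decide, by omega, by omega⟩ ?_ hmain hc2 K1 hKc
    · intro x hx y hy hxy
      rw [mem_coe, mem_Icc] at hx hy
      have := congrArg Subtype.val hxy
      rw [hf x hx.1 hx.2, hf y hy.1 hy.2] at this
      omega
    · intro x hx y hy hE
      rw [mem_Icc] at hx hy
      obtain ⟨o1, o2⟩ := E3_edge hn2 hx.2 hy.1 hE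
      have h1 := hE.1
      have hfx := hf x hx.1 hx.2
      have hfy := hf y hy.1 hy.2
      refine ⟨fun h => ?_, Or.inr ⟨Or.inr ?_, Or.inr ?_⟩⟩
      · rw [← h, hfx] at hfy
        omega
      · have e : ((f x).1 + (f y).1) / 2 = x + y := by omega
        rw [e]
        exact o1
      · have e : (((f x).1 : ℤ) - (f y).1).natAbs / 2 = x - y := by omega
        rw [e]
        exact o2
    · intro v
      obtain ⟨k, hk⟩ := v.2.1
      have hk1 := v.2.2.1
      have hk2 := v.2.2.2
      right
      refine ⟨k, mem_Icc.2 ⟨by omega, by omega⟩, ?_⟩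
      apply Subtype.ext
      rw [hf k (by omega) (by omega)]
      omega

end Pool.Agent.Results.MP_443e5f_co.OnePrimeOneAlmostPrime
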