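import Pool.Agent.Helper255.GC.Fin

/-!
# The Goldbach graphs with one prime and one almost prime have diameter at most nine

Relax the adjacency in the Goldbach graph `G_n` and in the near Goldbach graph `G(n)`: one of the numbers
`(a+b)/2`, `|a-b|/2` is an odd prime, the other one is odd and has at most `k` prime factors.  There are
constants `k` and `N` such that for all `n ≥ N` both relaxed graphs are connected and have diameter at most `9`.
So the answer to the question is yes if one of the two primes is replaced by an almost prime.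

Proof. Write the vertices as `2x`.  For `x ≥ n/24` at least `c n` vertices have distance two from `2x` (theorem of
Chen with the exact local factors and an upper bound sieve), and every vertex has a neighbour `2x` with
`x ≥ n/24`.  The new part is that all but at most `ε n²` of the pairs `2x, 2x'` of the same parity of `x` have a
common neighbour (`k` depends on `ε`): for almost all even `h` the primes `p` with `p + h` prime are well
distributed in all residue classes modulo all small numbers, and a second moment over the points `x` with the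
fundamental lemma of the sieve shows that almost all `x` have such a `p` for which `2x - p` and `2x - p + h` have
few prime factors.  Two sets of `c n` vertices therefore contain vertices with a common neighbour.
-/

set_option autoImplicit false

open Finset

namespace Pool.Agent.Results.MP_443e5f_co.PrimeAndAlmostPrime

open Pool.Agent.Helper255.GC (Ek NG num_core)

/-- `m` is an odd prime less than `2n` -/
def OddPrime (n m : ℕ) : Prop := m.Prime ∧ m ≠ 2 ∧ m < 2 * n

/-- `m` is odd, `1 < m < 2n`, and `m` has at most `k` prime factors, counted with multiplicity -/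
def OddPk (k n m : ℕ) : Prop := Odd m ∧ 1 < m ∧ m < 2 * n ∧ m.primeFactorsList.length ≤ k

/-- the relaxed Goldbach graph on `{0, 2, …, 2n}`: one of `(a+b)/2`, `|a-b|/2` is an odd prime less than `2n`, the
other one is odd, greater than `1`, less than `2n` and has at most `k` prime factors -/
def gold (k n : ℕ) : SimpleGraph {a : ℕ // Even a ∧ a ≤ 2 * n} where
  Adj a b := a ≠ b ∧
    (OddPrime n ((a.1 + b.1) / 2) ∧ OddPk k n (((a.1 : ℤ) - b.1).natAbs / 2) ∨
      OddPk k n ((a.1 + b.1) / 2) ∧ OddPrime n (((a.1 : ℤ) - b.1).natAbs / 2))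
  symm := ⟨fun a b h => by
    rw [add_comm b.1 a.1, ← Int.natAbs_neg ((b.1 : ℤ) - a.1), neg_sub]
    exact ⟨h.1.symm, h.2⟩⟩
  loopless := ⟨fun _ h => h.1 rfl⟩

/-- the relaxed near Goldbach graph on `{2, 4, …, 2n}`: one of `(a+b)/2`, `|a-b|/2` is `1` or an odd prime less than
`2n`, the other one is `1` or odd, less than `2n` and with at most `k` prime factors -/
def near (k n : ℕ) : SimpleGraph {a : ℕ // Even a ∧ 2 ≤ a ∧ a ≤ 2 * n} where
  Adj a b := a ≠ b ∧
    (((a.1 + b.1) / 2 = 1 ∨ OddPrime n ((a.1 + b.1) / 2)) ∧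
        (((a.1 : ℤ) - b.1).natAbs / 2 = 1 ∨ OddPk k n (((a.1 : ℤ) - b.1).natAbs / 2)) ∨
      ((a.1 + b.1) / 2 = 1 ∨ OddPk k n ((a.1 + b.1) / 2)) ∧
        (((a.1 : ℤ) - b.1).natAbs / 2 = 1 ∨ OddPrime n (((a.1 : ℤ) - b.1).natAbs / 2)))
  symm := ⟨fun a b h => by
    rw [add_comm b.1 a.1, ← Int.natAbs_neg ((b.1 : ℤ) - a.1), neg_sub]
    exact ⟨h.1.symm, h.2⟩⟩
  loopless := ⟨fun _ h => h.1 rfl⟩

/-- the edges -/
lemma edge {k n x y : ℕ} (hx : x ≤ n) (hy : 1 ≤ y) (h : Ek k x y) :
    OddPk k n (x + y) ∧ OddPrime n (x - y) := by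
  obtain ⟨h1, h2, h3, h4, h5⟩ := h
  exact ⟨⟨h4, by omega, by omega, h5⟩, h2, h3, by omega⟩

/-- short walks give distances -/
lemma assemble {V : Type} (H : SimpleGraph V) (k n : ℕ) (f : ℕ → V)
    (hadj : ∀ x y : ℕ, (NG k n).Adj x y → H.Adj (f x) (f y))
    (hlarge : ∀ x x' : ℕ, n ≤ 24 * x → x ≤ n → n ≤ 24 * x' → x' ≤ n → x % 2 = x' % 2 →
      ∃ p : (NG k n).Walk x x', p.length ≤ 6)
    (par : V → ℕ)
    (hnb : ∀ v : V, ∃ y : ℕ, n ≤ 24 * y ∧ y ≤ n ∧ y % 2 = (par v + 1) % 2 ∧ H.Adj v (f y))
    (hpar : ∀ x : ℕ, 1 ≤ x → x ≤ n → par (f x) % 2 = x % 2) (hn : 1000 ≤ n) [Nonempty V] :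
    H.Connected ∧ ∀ u v : V, H.dist u v ≤ 9 := by
  have hom : ∀ x x' : ℕ, (∃ p : (NG k n).Walk x x', p.length ≤ 6) → ∃ p : H.Walk (f x) (f x'), p.length ≤ 6 := by
    rintro x x' ⟨p, hp⟩
    refine ⟨p.map (⟨f, fun {a b} h => hadj a b h⟩ : (NG k n) →g H), ?_⟩
    rw [SimpleGraph.Walk.length_map]
    exact hp
  have key : ∀ u v : V, ∃ p : H.Walk u v, p.length ≤ 9 := by
    intro u v
    obtain ⟨y, hy1, hy2, hy3, hy4⟩ := hnb u
    obtain ⟨y', hy1', hy2', hy3', hy4'⟩ := hnb v
    by_cases hp : y % 2 = y' % 2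
    · obtain ⟨p, hp⟩ := hom y y' (hlarge y y' hy1 hy2 hy1' hy2' hp)
      refine ⟨SimpleGraph.Walk.cons hy4 (p.append (SimpleGraph.Walk.cons hy4'.symm SimpleGraph.Walk.nil)), ?_⟩
      rw [SimpleGraph.Walk.length_cons, SimpleGraph.Walk.length_append, SimpleGraph.Walk.length_cons,
        SimpleGraph.Walk.length_nil]
      omega
    · obtain ⟨y'', hy1'', hy2'', hy3'', hy4''⟩ := hnb (f y')
      have hpy := hpar y' (by omega) hy2'
      obtain ⟨p, hp⟩ := hom y y'' (hlarge y y'' hy1 hy2 hy1'' hy2'' (by omega))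
      refine ⟨SimpleGraph.Walk.cons hy4 (p.append (SimpleGraph.Walk.cons hy4''.symm
        (SimpleGraph.Walk.cons hy4'.symm SimpleGraph.Walk.nil))), ?_⟩
      rw [SimpleGraph.Walk.length_cons, SimpleGraph.Walk.length_append, SimpleGraph.Walk.length_cons,
        SimpleGraph.Walk.length_cons, SimpleGraph.Walk.length_nil]
      omega
  refine ⟨⟨fun u v => ?_⟩, fun u v => ?_⟩
  · obtain ⟨p, -⟩ := key u v
    exact ⟨p⟩
  · obtain ⟨p, hp⟩ := key u v
    exact (SimpleGraph.dist_le p).trans hp

/-- parity along the edges -/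
lemma adj_parity {k n x y : ℕ} (h : (NG k n).Adj x y) : y % 2 = (x + 1) % 2 := by
  rcases h.2.2 with h1 | h1
  · have := h1.2.2.2.1
    rw [Nat.odd_iff] at this
    omega
  · have := h1.2.2.2.1
    rw [Nat.odd_iff] at this
    omega

/-- **Main theorem.** There are constants `k` and `N` such that for all `n ≥ N` both relaxed graphs, with one prime
and one number with at most `k` prime factors, are connected and have diameter at most `9`. -/
theorem result : ∃ k N : ℕ, ∀ n : ℕ, N ≤ n →
    ((gold k n).Connected ∧ ∀ u v, (gold k n).dist u v ≤ 9) ∧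
      ((near k n).Connected ∧ ∀ u v, (near k n).dist u v ≤ 9) := by
  classical
  obtain ⟨k, n₀, hk, hn₀, hcore⟩ := num_core
  refine ⟨k, n₀, fun n hn => ?_⟩
  obtain ⟨hnb, hlarge⟩ := hcore n hn
  have hn1 : 1000 ≤ n := hn₀.trans hn
  constructor
  · let f : ℕ → {a : ℕ // Even a ∧ a ≤ 2 * n} := fun x => if h : x ≤ n then ⟨2 * x, ⟨x, by ring⟩, by omega⟩ else ⟨0, by decide, by omega⟩
    have hf : ∀ x, x ≤ n → (f x).1 = 2 * x := by
      intro x hx
      simp only [f]
      rw [dif_pos hx]
    have hne : Nonempty {a : ℕ // Even a ∧ a ≤ 2 * n} := ⟨⟨0, by decide, by omega⟩⟩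
    have hadj' : ∀ x y : ℕ, 1 ≤ y → x ≤ n → Ek k x y → (gold k n).Adj (f x) (f y) := by
      intro x y hy hx hE
      obtain ⟨o1, o2⟩ := edge hx hy hE
      have h1 := hE.1
      have hfx := hf x hx
      have hfy := hf y (by omega)
      refine ⟨fun h => ?_, Or.inr ⟨?_, ?_⟩⟩
      · rw [← h, hfx] at hfy
        omega
      · have e : ((f x).1 + (f y).1) / 2 = x + y := by omega
        rw [e]
        exact o1
      · have e : (((f x).1 : ℤ) - (f y).1).natAbs / 2 = x - y := by omega
        rw [e]
        exact o2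
    have hadj : ∀ x y : ℕ, (NG k n).Adj x y → (gold k n).Adj (f x) (f y) := by
      rintro x y ⟨h1, h2, h3⟩
      rcases h3 with h3 | h3
      · exact hadj' x y h2.1 h1.2 h3
      · exact (hadj' y x h1.1 h2.2 h3).symm
    apply assemble (gold k n) k n f hadj hlarge (fun v => v.1 / 2) _ _ hn1
    · intro v
      obtain ⟨x, hx⟩ := v.2.1
      have hxn := v.2.2
      rcases Nat.eq_zero_or_pos x with h0 | h0
      · -- the vertex `0`
        have hv0 : v.1 = 0 := by omega
        obtain ⟨p, hp, hp1, hp2⟩ := Nat.exists_prime_lt_and_le_two_mul (n / 2) (by omega)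
        have hfp := hf p (by omega)
        have hpodd : Odd p := hp.odd_of_ne_two (by omega)
        refine ⟨p, by omega, by omega, ?_, ?_, Or.inl ⟨?_, ?_⟩⟩
        · show p % 2 = (v.1 / 2 + 1) % 2
          rw [hv0]
          rw [Nat.odd_iff] at hpodd
          omega
        · intro h
          rw [← h, hv0] at hfp
          omega
        · have e : (v.1 + (f p).1) / 2 = p := by omega
          rw [e]
          exact ⟨hp, by omega, by omega⟩
        · have e : ((v.1 : ℤ) - (f p).1).natAbs / 2 = p := by omega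
          rw [e]
          refine ⟨hpodd, hp.one_lt, by omega, ?_⟩
          rw [Nat.primeFactorsList_prime hp]
          simp only [List.length_singleton]
          omega
      · obtain ⟨y, hy1, hy2⟩ := hnb x h0 (by omega)
        have hvf : f x = v := by
          apply Subtype.ext
          rw [hf x (by omega)]
          omega
        refine ⟨y, hy1, hy2.2.1.2, ?_, ?_⟩
        · show y % 2 = (v.1 / 2 + 1) % 2
          have := adj_parity hy2
          omega
        · rw [← hvf]
          exact hadj x y hy2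
    · intro x hx1 hxn
      show (f x).1 / 2 % 2 = x % 2
      rw [hf x hxn]
      omega
  · let f : ℕ → {a : ℕ // Even a ∧ 2 ≤ a ∧ a ≤ 2 * n} := fun x => if h : 1 ≤ x ∧ x ≤ n then ⟨2 * x, ⟨x, by ring⟩, by omega, by omega⟩ else ⟨2, by decide, by omega, by omega⟩
    have hf : ∀ x, 1 ≤ x → x ≤ n → (f x).1 = 2 * x := by
      intro x hx hx'
      simp only [f]
      rw [dif_pos ⟨hx, hx'⟩]
    have hne : Nonempty {a : ℕ // Even a ∧ 2 ≤ a ∧ a ≤ 2 * n} := ⟨⟨2, by decide, by omega, by omega⟩⟩
    have hadj' : ∀ x y : ℕ, 1 ≤ y → x ≤ n → Ek k x y → (near k n).Adj (f x) (f y) := by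
      intro x y hy hx hE
      obtain ⟨o1, o2⟩ := edge hx hy hE
      have h1 := hE.1
      have hfx := hf x (by omega) hx
      have hfy := hf y hy (by omega)
      refine ⟨fun h => ?_, Or.inr ⟨Or.inr ?_, Or.inr ?_⟩⟩
      · rw [← h, hfx] at hfy
        omega
      · have e : ((f x).1 + (f y).1) / 2 = x + y := by omega
        rw [e]
        exact o1
      · have e : (((f x).1 : ℤ) - (f y).1).natAbs / 2 = x - y := by omega
        rw [e]
        exact o2
    have hadj : ∀ x y : ℕ, (NG k n).Adj x y → (near k n).Adj (f x) (f y) := by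
      rintro x y ⟨h1, h2, h3⟩
      rcases h3 with h3 | h3
      · exact hadj' x y h2.1 h1.2 h3
      · exact (hadj' y x h1.1 h2.2 h3).symm
    apply assemble (near k n) k n f hadj hlarge (fun v => v.1 / 2) _ _ hn1
    · intro v
      obtain ⟨x, hx⟩ := v.2.1
      have hx1 := v.2.2.1
      have hxn := v.2.2.2
      obtain ⟨y, hy1, hy2⟩ := hnb x (by omega) (by omega)
      have hvf : f x = v := by
        apply Subtype.ext
        rw [hf x (by omega) (by omega)]
        omega
      refine ⟨y, hy1, hy2.2.1.2, ?_, ?_⟩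
      · show y % 2 = (v.1 / 2 + 1) % 2
        have := adj_parity hy2
        omega
      · rw [← hvf]
        exact hadj x y hy2
    · intro x hx1 hxn
      show (f x).1 / 2 % 2 = x % 2
      rw [hf x hx1 hxn]
      omega

end Pool.Agent.Results.MP_443e5f_co.PrimeAndAlmostPrime
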