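import Mathlib
import Pool.Agent.H373R2.T7.Fund

/-!
# Bounded diameter of the sieved near Goldbach graphs

The near Goldbach graph `G(n)` is the edge-intersection of the graphs `G(p,n)` over the odd primes
`p` up to about `√(2n)`.  Here we take the primes up to a fixed power `n^(1/K)`: the intersection
is connected with diameter at most `5`, and exactly `5` if `3` and two further primes are used.

Write the vertices as `2 x`.  If `x² ≢ y²` modulo all `p ∈ Ps ∪ {2, 3}`, then `2x` and `2y` are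
adjacent.  Modulo `2` and `3` such edges change the class of `x²`, so that they leave two parts,
joined by edges with `|x - y| = 3` only.  The vertices of the paths have to avoid at most four
classes modulo `p ≥ 5` and are found with the fundamental lemma of the sieve.
-/

set_option autoImplicit false

namespace Pool.Agent.Results.MP_443e5f_co.RoughDiameter

/-- the vertex set `{2, 4, …, 2n}` -/
abbrev Vtx (n : ℕ) := {a : ℕ // Even a ∧ 2 ≤ a ∧ a ≤ 2 * n}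

/-- `m` is an odd number, at most `2n-1`, not of the form `p k` with `k > 1` -/
def OKp (p n m : ℕ) : Prop := Odd m ∧ m ≤ 2 * n - 1 ∧ ¬ ∃ k, 1 < k ∧ m = p * k

/-- the graph `G(p,n)`: `a ≠ b` are adjacent iff `(a+b)/2` and `|a-b|/2` are odd numbers at most
`2n-1` not of the form `p k` with `k > 1` -/
def G (p n : ℕ) : SimpleGraph (Vtx n) where
  Adj a b := a ≠ b ∧ OKp p n ((a.1 + b.1) / 2) ∧ OKp p n (((a.1 : ℤ) - b.1).natAbs / 2)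
  symm := ⟨fun a b h => by
    refine ⟨h.1.symm, ?_, ?_⟩
    · rw [add_comm]
      exact h.2.1
    · rw [← Int.natAbs_neg, neg_sub]
      exact h.2.2⟩
  loopless := ⟨fun _ h => h.1 rfl⟩

/-- the edge-intersection of the graphs `G(p,n)`, `p ∈ Ps` -/
def inter (Ps : Finset ℕ) (n : ℕ) : SimpleGraph (Vtx n) where
  Adj a b := a ≠ b ∧ ∀ p ∈ Ps, (G p n).Adj a b
  symm := ⟨fun _ _ h => ⟨h.1.symm, fun p hp => (h.2 p hp).symm⟩⟩
  loopless := ⟨fun _ h => h.1 rfl⟩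

/-- the vertex `2x` -/
def mk {n : ℕ} (x : ℕ) (h1 : 1 ≤ x) (h2 : x ≤ n) : Vtx n :=
  ⟨2 * x, ⟨x, by ring⟩, by omega, by omega⟩

theorem exists_mk {n : ℕ} (a : Vtx n) : ∃ x, ∃ h1 : 1 ≤ x, ∃ h2 : x ≤ n, a = mk x h1 h2 := by
  obtain ⟨a, ⟨x, rfl⟩, h1, h2⟩ := a
  exact ⟨x, by omega, by omega, Subtype.ext (by simp only [mk]; omega)⟩

/-- adjacency in terms of the halves -/
theorem adj_iff {Ps : Finset ℕ} {n x y : ℕ} (hx1 : 1 ≤ x) (hx2 : x ≤ n) (hy1 : 1 ≤ y)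
    (hy2 : y ≤ n) : (inter Ps n).Adj (mk x hx1 hx2) (mk y hy1 hy2) ↔
      x ≠ y ∧ ∀ p ∈ Ps, OKp p n (x + y) ∧ OKp p n ((x : ℤ) - y).natAbs := by
  have h1 : (2 * x + 2 * y) / 2 = x + y := by omega
  have h2 : (((2 * x : ℕ) : ℤ) - ((2 * y : ℕ) : ℤ)).natAbs / 2 = ((x : ℤ) - y).natAbs := by omega
  have h3 : (mk x hx1 hx2 : Vtx n) ≠ mk y hy1 hy2 ↔ x ≠ y := by
    rw [Ne, Subtype.ext_iff]
    simp only [mk]
    omega
  show ((mk x hx1 hx2 : Vtx n) ≠ mk y hy1 hy2 ∧ ∀ p ∈ Ps, (mk x hx1 hx2 : Vtx n) ≠ mk y hy1 hy2 ∧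
    OKp p n ((2 * x + 2 * y) / 2) ∧
      OKp p n ((((2 * x : ℕ) : ℤ) - ((2 * y : ℕ) : ℤ)).natAbs / 2)) ↔ _
  rw [h1, h2, h3]
  constructor
  · rintro ⟨h, h'⟩
    exact ⟨h, fun p hp => (h' p hp).2⟩
  · rintro ⟨h, h'⟩
    exact ⟨h, fun p hp => ⟨h, h' p hp⟩⟩

/-- the moduli -/
def Mod (Ps : Finset ℕ) : Finset ℕ := insert 2 (insert 3 Ps)

theorem not_dvd {x y p : ℕ} (h : (x : ZMod p) ^ 2 ≠ (y : ZMod p) ^ 2) :
    ¬ p ∣ x + y ∧ ¬ p ∣ ((x : ℤ) - y).natAbs := by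
  constructor
  · intro hd
    have h1 : ((x + y : ℕ) : ZMod p) = 0 := (ZMod.natCast_eq_zero_iff _ _).mpr hd
    push_cast at h1
    apply h
    have : (x : ZMod p) ^ 2 - (y : ZMod p) ^ 2 = (x + y) * (x - y) := by ring
    rw [h1, zero_mul] at this
    exact sub_eq_zero.mp this
  · intro hd
    have h1 : (((x : ℤ) - y : ℤ) : ZMod p) = 0 :=
      (ZMod.intCast_zmod_eq_zero_iff_dvd _ _).mpr (Int.natCast_dvd.mpr hd)
    push_cast at h1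
    apply h
    have : (x : ZMod p) ^ 2 - (y : ZMod p) ^ 2 = (x + y) * (x - y) := by ring
    rw [h1, mul_zero] at this
    exact sub_eq_zero.mp this

theorem generic {Ps : Finset ℕ} {n x y : ℕ} (hx1 : 1 ≤ x) (hx2 : x ≤ n) (hy1 : 1 ≤ y)
    (hy2 : y ≤ n) (h : ∀ p ∈ Mod Ps, (x : ZMod p) ^ 2 ≠ (y : ZMod p) ^ 2) :
    (inter Ps n).Adj (mk x hx1 hx2) (mk y hy1 hy2) := by
  have h2 := not_dvd (h 2 (by simp [Mod]))
  rw [adj_iff]
  refine ⟨by rintro rfl; exact h 2 (by simp [Mod]) rfl, fun p hp => ?_⟩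
  have hp' := not_dvd (h p (by simp [Mod, hp]))
  refine ⟨⟨?_, ?_, ?_⟩, ⟨?_, ?_, ?_⟩⟩
  · rw [← Nat.not_even_iff_odd, even_iff_two_dvd]
    exact h2.1
  · have := h2.1
    omega
  · rintro ⟨k, -, hk⟩
    exact hp'.1 ⟨k, hk⟩
  · rw [← Nat.not_even_iff_odd, even_iff_two_dvd]
    exact h2.2
  · omega
  · rintro ⟨k, -, hk⟩
    exact hp'.2 ⟨k, hk⟩

theorem bridge {Ps : Finset ℕ} (hPs : ∀ p ∈ Ps, p.Prime ∧ p ≠ 2) {n z : ℕ} (hz1 : 1 ≤ z)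
    (hz2 : z ≤ n) (hz3 : z + 3 ≤ n) (h : ∀ p ∈ Mod Ps, ((2 * z + 3 : ℕ) : ZMod p) ≠ 0) :
    (inter Ps n).Adj (mk z hz1 hz2) (mk (z + 3) (by omega) hz3) := by
  rw [adj_iff]
  refine ⟨by omega, fun p hp => ?_⟩
  have hp' : ¬ p ∣ 2 * z + 3 := fun hd =>
    h p (by simp [Mod, hp]) ((ZMod.natCast_eq_zero_iff _ _).mpr hd)
  have h3 : ((z : ℤ) - ((z + 3 : ℕ) : ℤ)).natAbs = 3 := by omega
  rw [h3]
  refine ⟨⟨⟨z + 1, by ring⟩, by omega, ?_⟩, ⟨⟨1, rfl⟩, by omega, ?_⟩⟩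
  · rintro ⟨k, -, hk⟩
    exact hp' ⟨k, by omega⟩
  · rintro ⟨k, hk1, hk⟩
    have h4 := (hPs p hp).1.two_le
    have h5 := (hPs p hp).2
    have h6 : 3 ≤ p := by omega
    nlinarith

theorem crt (R : Finset ℕ) (hR : ∀ p ∈ R, p.Prime) (c : (p : ℕ) → ZMod p) :
    ∃ u : ℕ, 1 ≤ u ∧ u ≤ ∏ p ∈ R, p ∧ ∀ p ∈ R, (u : ZMod p) = c p := by
  have hne : ∀ p ∈ R, id p ≠ 0 := fun p hp => (hR p hp).ne_zero
  have hco : Set.Pairwise (R : Set ℕ) (Function.onFun Nat.Coprime id) := by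
    intro p hp q hq hpq
    exact (Nat.coprime_primes (hR p hp) (hR q hq)).mpr hpq
  obtain ⟨k, hk, hlt⟩ : ∃ k : ℕ, (∀ p ∈ R, k ≡ (c p).val [MOD p]) ∧ k < ∏ p ∈ R, p :=
    ⟨_, (Nat.chineseRemainderOfFinset (fun p => (c p).val) id R hne hco).2,
      Nat.chineseRemainderOfFinset_lt_prod (fun p => (c p).val) id hne hco⟩
  have hpos : 0 < ∏ p ∈ R, p := Finset.prod_pos (fun p hp => (hR p hp).pos)
  have hcast : ∀ p ∈ R, (k : ZMod p) = c p := by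
    intro p hp
    have : NeZero p := ⟨(hR p hp).ne_zero⟩
    have h1 := (ZMod.natCast_eq_natCast_iff _ _ _).mpr (hk p hp)
    rw [h1, ZMod.natCast_zmod_val]
  by_cases h0 : k = 0
  · refine ⟨∏ p ∈ R, p, hpos, le_refl _, fun p hp => ?_⟩
    rw [← hcast p hp, h0, Nat.cast_zero]
    exact (ZMod.natCast_eq_zero_iff _ _).mpr (Finset.dvd_prod_of_mem _ hp)
  · exact ⟨k, by omega, hlt.le, hcast⟩

theorem sq_ne {p : ℕ} [Fact p.Prime] {a b : ZMod p} (h1 : a ≠ b) (h2 : a ≠ -b) :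
    a ^ 2 ≠ b ^ 2 := by
  intro h
  rcases sq_eq_sq_iff_eq_or_eq_neg.mp h with h | h
  · exact h1 h
  · exact h2 h

theorem two_mul_ne {p : ℕ} [Fact p.Prime] (hp : 5 ≤ p) {z : ZMod p}
    (hz : z ≠ -3 * (2 : ZMod p)⁻¹) : 2 * z + 3 ≠ 0 := by
  intro h
  apply hz
  have h2 : (2 : ZMod p) ≠ 0 := by
    intro h0
    have : ((2 : ℕ) : ZMod p) = 0 := by exact_mod_cast h0
    have := Nat.le_of_dvd (by norm_num) ((ZMod.natCast_eq_zero_iff _ _).mp this)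
    omega
  field_simp
  linear_combination h

/-- at most four classes modulo `p ≥ 5` are bad, and there is a good class modulo 2 and 3 -/
def Few (good : (p : ℕ) → ZMod p → Prop) : Prop :=
  (∃ u, good 2 u) ∧ (∃ u, good 3 u) ∧ ∀ p : ℕ, p.Prime → 5 ≤ p →
    ∃ a b c d : ZMod p, ∀ u, u ≠ a → u ≠ b → u ≠ c → u ≠ d → good p u

/-- one can solve such congruence conditions in `[1, n-3]` -/
def Find (Ps : Finset ℕ) (n : ℕ) : Prop := ∀ good : (p : ℕ) → ZMod p → Prop, Few good →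
  ∃ u : ℕ, 1 ≤ u ∧ u + 3 ≤ n ∧ ∀ p ∈ Mod Ps, good p (u : ZMod p)

theorem avoid {p : ℕ} [Fact p.Prime] (hp : 5 ≤ p) (a b c d : ZMod p) :
    ∃ u : ZMod p, u ≠ a ∧ u ≠ b ∧ u ≠ c ∧ u ≠ d := by
  by_contra hcon
  push Not at hcon
  have h1 : (Finset.univ : Finset (ZMod p)) ⊆ {a, b, c, d} := by
    intro u _
    simp only [Finset.mem_insert, Finset.mem_singleton]
    have := hcon u
    tauto
  have h2 := Finset.card_le_card h1
  have h3 : ({a, b, c, d} : Finset (ZMod p)).card ≤ 4 := Finset.card_le_four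
  rw [Finset.card_univ, ZMod.card] at h2
  omega

section Cases

variable {Ps : Finset ℕ} (hPs : ∀ p ∈ Ps, p.Prime ∧ p ≠ 2) {n : ℕ} (hF : Find Ps n)

theorem two_mem : 2 ∈ Mod Ps := by simp [Mod]

theorem three_mem : 3 ∈ Mod Ps := by simp [Mod]

/-- there is always a `v` with `u² ≠ v² ≠ y²` for `p ≥ 5` -/
theorem exists_sq {p : ℕ} (hpp : p.Prime) (hp : 5 ≤ p) (a b : ZMod p) :
    ∃ u : ZMod p, a ^ 2 ≠ u ^ 2 ∧ u ^ 2 ≠ b ^ 2 := by
  have : Fact p.Prime := ⟨hpp⟩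
  obtain ⟨u, h1, h2, h3, h4⟩ := avoid hp a (-a) b (-b)
  exact ⟨u, (sq_ne h1 h2).symm, sq_ne h3 h4⟩

/-- the last step of all paths -/
theorem few_last (x y : ℕ) (h2 : ∃ u : ZMod 2, (x : ZMod 2) ^ 2 ≠ u ^ 2 ∧ u ^ 2 ≠ (y : ZMod 2) ^ 2)
    (h3 : ∃ u : ZMod 3, (x : ZMod 3) ^ 2 ≠ u ^ 2 ∧ u ^ 2 ≠ (y : ZMod 3) ^ 2) :
    Few (fun p u => (x : ZMod p) ^ 2 ≠ u ^ 2 ∧ u ^ 2 ≠ (y : ZMod p) ^ 2) := by
  refine ⟨h2, h3, fun p hpp hp => ?_⟩
  have : Fact p.Prime := ⟨hpp⟩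
  exact ⟨x, -x, y, -y, fun u a1 a2 a3 a4 => ⟨(sq_ne a1 a2).symm, sq_ne a3 a4⟩⟩

include hF in
/-- a path of length two -/
theorem path2 {x y : ℕ} (hx1 : 1 ≤ x) (hx2 : x ≤ n) (hy1 : 1 ≤ y) (hy2 : y ≤ n)
    (h2 : ∃ u : ZMod 2, (x : ZMod 2) ^ 2 ≠ u ^ 2 ∧ u ^ 2 ≠ (y : ZMod 2) ^ 2)
    (h3 : ∃ u : ZMod 3, (x : ZMod 3) ^ 2 ≠ u ^ 2 ∧ u ^ 2 ≠ (y : ZMod 3) ^ 2) :
    ∃ w : (inter Ps n).Walk (mk x hx1 hx2) (mk y hy1 hy2), w.length = 2 := by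
  obtain ⟨u, hu1, hu2, hu⟩ := hF _ (few_last x y h2 h3)
  have a1 := generic (Ps := Ps) (n := n) hx1 hx2 hu1 (by omega) (fun p hp => (hu p hp).1)
  have a2 := generic (Ps := Ps) (n := n) hu1 (by omega) hy1 hy2 (fun p hp => (hu p hp).2)
  exact ⟨.cons a1 (.cons a2 .nil), rfl⟩

include hF in
/-- a path of length three without bridge -/
theorem path3 {x y : ℕ} (hx1 : 1 ≤ x) (hx2 : x ≤ n) (hy1 : 1 ≤ y) (hy2 : y ≤ n)
    (h2 : ∃ u v : ZMod 2, (x : ZMod 2) ^ 2 ≠ u ^ 2 ∧ u ^ 2 ≠ v ^ 2 ∧ v ^ 2 ≠ (y : ZMod 2) ^ 2)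
    (h3 : ∃ u v : ZMod 3, (x : ZMod 3) ^ 2 ≠ u ^ 2 ∧ u ^ 2 ≠ v ^ 2 ∧ v ^ 2 ≠ (y : ZMod 3) ^ 2) :
    ∃ w : (inter Ps n).Walk (mk x hx1 hx2) (mk y hy1 hy2), w.length = 3 := by
  obtain ⟨u, hu1, hu2, hu⟩ := hF (fun p u => (x : ZMod p) ^ 2 ≠ u ^ 2 ∧
    ∃ v : ZMod p, u ^ 2 ≠ v ^ 2 ∧ v ^ 2 ≠ (y : ZMod p) ^ 2) ⟨by
      obtain ⟨u, v, a, b⟩ := h2
      exact ⟨u, a, v, b⟩, by
      obtain ⟨u, v, a, b⟩ := h3
      exact ⟨u, a, v, b⟩, fun p hpp hp => by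
      have : Fact p.Prime := ⟨hpp⟩
      exact ⟨x, -x, 0, 0, fun u a1 a2 _ _ => ⟨(sq_ne a1 a2).symm, exists_sq hpp hp _ _⟩⟩⟩
  obtain ⟨w, hw⟩ := path2 hF hu1 (by omega) hy1 hy2 (hu 2 two_mem).2 (hu 3 three_mem).2
  have a1 := generic (Ps := Ps) (n := n) hx1 hx2 hu1 (by omega) (fun p hp => (hu p hp).1)
  exact ⟨.cons a1 w, by simp [hw]⟩

include hPs hF in
/-- a path of length four with the bridge in the second place -/
theorem path4 {x y : ℕ} (hx1 : 1 ≤ x) (hx2 : x ≤ n) (hy1 : 1 ≤ y) (hy2 : y ≤ n)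
    (h2 : ∃ z v : ZMod 2, (x : ZMod 2) ^ 2 ≠ z ^ 2 ∧ 2 * z + 3 ≠ 0 ∧ (z + 3) ^ 2 ≠ v ^ 2 ∧
      v ^ 2 ≠ (y : ZMod 2) ^ 2)
    (h3 : ∃ z v : ZMod 3, (x : ZMod 3) ^ 2 ≠ z ^ 2 ∧ 2 * z + 3 ≠ 0 ∧ (z + 3) ^ 2 ≠ v ^ 2 ∧
      v ^ 2 ≠ (y : ZMod 3) ^ 2) :
    ∃ w : (inter Ps n).Walk (mk x hx1 hx2) (mk y hy1 hy2), w.length = 4 := by
  obtain ⟨z, hz1, hz2, hz⟩ := hF (fun p z => (x : ZMod p) ^ 2 ≠ z ^ 2 ∧ 2 * z + 3 ≠ 0 ∧
    ∃ v : ZMod p, (z + 3) ^ 2 ≠ v ^ 2 ∧ v ^ 2 ≠ (y : ZMod p) ^ 2) ⟨by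
      obtain ⟨z, v, a, b, c⟩ := h2
      exact ⟨z, a, b, v, c⟩, by
      obtain ⟨z, v, a, b, c⟩ := h3
      exact ⟨z, a, b, v, c⟩, fun p hpp hp => by
      have : Fact p.Prime := ⟨hpp⟩
      exact ⟨x, -x, -3 * (2 : ZMod p)⁻¹, 0, fun z a1 a2 a3 _ =>
        ⟨(sq_ne a1 a2).symm, two_mul_ne hp a3, exists_sq hpp hp _ _⟩⟩⟩
  obtain ⟨w, hw⟩ := path2 hF (x := z + 3) (by omega) (by omega) hy1 hy2
    (by push_cast; exact (hz 2 two_mem).2.2) (by push_cast; exact (hz 3 three_mem).2.2)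
  have a1 := generic (Ps := Ps) (n := n) hx1 hx2 hz1 (by omega) (fun p hp => (hz p hp).1)
  have a2 := bridge hPs (n := n) hz1 (by omega) (by omega)
    (fun p hp => by push_cast; exact (hz p hp).2.1)
  exact ⟨.cons a1 (.cons a2 w), by simp [hw]⟩

include hPs hF in
/-- a path of length five with the bridge in the third place -/
theorem path5 {x y : ℕ} (hx1 : 1 ≤ x) (hx2 : x ≤ n) (hy1 : 1 ≤ y) (hy2 : y ≤ n)
    (h2 : ∃ u z v : ZMod 2, (x : ZMod 2) ^ 2 ≠ u ^ 2 ∧ u ^ 2 ≠ z ^ 2 ∧ 2 * z + 3 ≠ 0 ∧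
      (z + 3) ^ 2 ≠ v ^ 2 ∧ v ^ 2 ≠ (y : ZMod 2) ^ 2)
    (h3 : ∃ u z v : ZMod 3, (x : ZMod 3) ^ 2 ≠ u ^ 2 ∧ u ^ 2 ≠ z ^ 2 ∧ 2 * z + 3 ≠ 0 ∧
      (z + 3) ^ 2 ≠ v ^ 2 ∧ v ^ 2 ≠ (y : ZMod 3) ^ 2) :
    ∃ w : (inter Ps n).Walk (mk x hx1 hx2) (mk y hy1 hy2), w.length = 5 := by
  obtain ⟨u, hu1, hu2, hu⟩ := hF (fun p u => (x : ZMod p) ^ 2 ≠ u ^ 2 ∧ ∃ z v : ZMod p,
    u ^ 2 ≠ z ^ 2 ∧ 2 * z + 3 ≠ 0 ∧ (z + 3) ^ 2 ≠ v ^ 2 ∧ v ^ 2 ≠ (y : ZMod p) ^ 2) ⟨by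
      obtain ⟨u, z, v, a, b⟩ := h2
      exact ⟨u, a, z, v, b⟩, by
      obtain ⟨u, z, v, a, b⟩ := h3
      exact ⟨u, a, z, v, b⟩, fun p hpp hp => by
      have : Fact p.Prime := ⟨hpp⟩
      refine ⟨x, -x, 0, 0, fun u a1 a2 _ _ => ⟨(sq_ne a1 a2).symm, ?_⟩⟩
      obtain ⟨z, b1, b2, b3, -⟩ := avoid hp u (-u) (-3 * (2 : ZMod p)⁻¹) 0
      obtain ⟨v, hv⟩ := exists_sq hpp hp (z + 3) (y : ZMod p)
      exact ⟨z, v, (sq_ne b1 b2).symm, two_mul_ne hp b3, hv⟩⟩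
  obtain ⟨w, hw⟩ := path4 hPs hF hu1 (by omega) hy1 hy2 (hu 2 two_mem).2 (hu 3 three_mem).2
  have a1 := generic (Ps := Ps) (n := n) hx1 hx2 hu1 (by omega) (fun p hp => (hu p hp).1)
  exact ⟨.cons a1 w, by simp [hw]⟩

include hPs hF in
/-- a path of length five with the bridge in the fourth place -/
theorem path5' {x y : ℕ} (hx1 : 1 ≤ x) (hx2 : x ≤ n) (hy1 : 1 ≤ y) (hy2 : y ≤ n)
    (h2 : ∃ z u v : ZMod 2, 2 * z + 3 ≠ 0 ∧ (z + 3) ^ 2 ≠ (y : ZMod 2) ^ 2 ∧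
      (x : ZMod 2) ^ 2 ≠ u ^ 2 ∧ u ^ 2 ≠ v ^ 2 ∧ v ^ 2 ≠ z ^ 2)
    (h3 : ∃ z u v : ZMod 3, 2 * z + 3 ≠ 0 ∧ (z + 3) ^ 2 ≠ (y : ZMod 3) ^ 2 ∧
      (x : ZMod 3) ^ 2 ≠ u ^ 2 ∧ u ^ 2 ≠ v ^ 2 ∧ v ^ 2 ≠ z ^ 2) :
    ∃ w : (inter Ps n).Walk (mk x hx1 hx2) (mk y hy1 hy2), w.length = 5 := by
  obtain ⟨z, hz1, hz2, hz⟩ := hF (fun p z => 2 * z + 3 ≠ 0 ∧ (z + 3) ^ 2 ≠ (y : ZMod p) ^ 2 ∧
    ∃ u v : ZMod p, (x : ZMod p) ^ 2 ≠ u ^ 2 ∧ u ^ 2 ≠ v ^ 2 ∧ v ^ 2 ≠ z ^ 2) ⟨by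
      obtain ⟨z, u, v, a, b, c⟩ := h2
      exact ⟨z, a, b, u, v, c⟩, by
      obtain ⟨z, u, v, a, b, c⟩ := h3
      exact ⟨z, a, b, u, v, c⟩, fun p hpp hp => by
      have : Fact p.Prime := ⟨hpp⟩
      refine ⟨-3 * (2 : ZMod p)⁻¹, y - 3, -y - 3, 0, fun z a1 a2 a3 _ =>
        ⟨two_mul_ne hp a1, sq_ne ?_ ?_, ?_⟩⟩
      · intro h
        exact a2 (by rw [← h]; ring)
      · intro h
        exact a3 (by rw [← h]; ring)
      obtain ⟨v, -, b1⟩ := exists_sq hpp hp z z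
      obtain ⟨u, b2, b3⟩ := exists_sq hpp hp (x : ZMod p) v
      exact ⟨u, v, b2, b3, b1⟩⟩
  obtain ⟨w, hw⟩ := path3 hF hx1 hx2 hz1 (by omega) (hz 2 two_mem).2.2 (hz 3 three_mem).2.2
  have a1 := bridge hPs (n := n) hz1 (by omega) (by omega)
    (fun p hp => by push_cast; exact (hz p hp).1)
  have a2 := generic (Ps := Ps) (n := n) (x := z + 3) (by omega) (by omega) hy1 hy2
    (fun p hp => by push_cast; exact (hz p hp).2.1)
  exact ⟨w.append (.cons a1 (.cons a2 .nil)), by simp [hw]⟩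

include hPs hF in
theorem walk_le (a b : Vtx n) : ∃ w : (inter Ps n).Walk a b, w.length ≤ 5 := by
  obtain ⟨x, hx1, hx2, rfl⟩ := exists_mk a
  obtain ⟨y, hy1, hy2, rfl⟩ := exists_mk b
  have case3 : ∀ x y : ℕ, ∀ (hx1 : 1 ≤ x) (hx2 : x ≤ n) (hy1 : 1 ≤ y) (hy2 : y ≤ n),
      (x : ZMod 2) ^ 2 = (y : ZMod 2) ^ 2 → (x : ZMod 3) ^ 2 ≠ (y : ZMod 3) ^ 2 →
      (x : ZMod 3) = 0 →
      ∃ w : (inter Ps n).Walk (mk x hx1 hx2) (mk y hy1 hy2), w.length ≤ 5 := by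
    intro x y hx1 hx2 hy1 hy2 h2 h3 h0
    obtain ⟨w, hw⟩ := path4 hPs hF hx1 hx2 hy1 hy2
      ((by decide : ∀ X Y : ZMod 2, X ^ 2 = Y ^ 2 → ∃ z v : ZMod 2, X ^ 2 ≠ z ^ 2 ∧
        2 * z + 3 ≠ 0 ∧ (z + 3) ^ 2 ≠ v ^ 2 ∧ v ^ 2 ≠ Y ^ 2) _ _ h2)
      ((by decide : ∀ X Y : ZMod 3, X ^ 2 ≠ Y ^ 2 → X = 0 → ∃ z v : ZMod 3, X ^ 2 ≠ z ^ 2 ∧
        2 * z + 3 ≠ 0 ∧ (z + 3) ^ 2 ≠ v ^ 2 ∧ v ^ 2 ≠ Y ^ 2) _ _ h3 h0)
    exact ⟨w, by omega⟩
  by_cases h2 : (x : ZMod 2) ^ 2 = (y : ZMod 2) ^ 2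
  · by_cases h3 : (x : ZMod 3) ^ 2 = (y : ZMod 3) ^ 2
    · obtain ⟨w, hw⟩ := path2 hF hx1 hx2 hy1 hy2
        ((by decide : ∀ X Y : ZMod 2, X ^ 2 = Y ^ 2 → ∃ u : ZMod 2, X ^ 2 ≠ u ^ 2 ∧
          u ^ 2 ≠ Y ^ 2) _ _ h2)
        ((by decide : ∀ X Y : ZMod 3, X ^ 2 = Y ^ 2 → ∃ u : ZMod 3, X ^ 2 ≠ u ^ 2 ∧
          u ^ 2 ≠ Y ^ 2) _ _ h3)
      exact ⟨w, by omega⟩
    · by_cases h0 : (x : ZMod 3) = 0
      · exact case3 x y hx1 hx2 hy1 hy2 h2 h3 h0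
      · have h0' : (y : ZMod 3) = 0 :=
          (by decide : ∀ X Y : ZMod 3, X ^ 2 ≠ Y ^ 2 → X ≠ 0 → Y = 0) _ _ h3 h0
        obtain ⟨w, hw⟩ := case3 y x hy1 hy2 hx1 hx2 h2.symm (Ne.symm h3) h0'
        exact ⟨w.reverse, by rw [SimpleGraph.Walk.length_reverse]; exact hw⟩
  · by_cases h3 : (x : ZMod 3) ^ 2 = (y : ZMod 3) ^ 2
    · by_cases h0 : (x : ZMod 3) = 0
      · have h0' : (y : ZMod 3) = 0 :=
          (by decide : ∀ X Y : ZMod 3, X ^ 2 = Y ^ 2 → X = 0 → Y = 0) _ _ h3 h0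
        obtain ⟨w, hw⟩ := path5' hPs hF hx1 hx2 hy1 hy2
          ((by decide : ∀ X Y : ZMod 2, X ^ 2 ≠ Y ^ 2 → ∃ z u v : ZMod 2, 2 * z + 3 ≠ 0 ∧
            (z + 3) ^ 2 ≠ Y ^ 2 ∧ X ^ 2 ≠ u ^ 2 ∧ u ^ 2 ≠ v ^ 2 ∧ v ^ 2 ≠ z ^ 2) _ _ h2)
          ((by decide : ∀ X Y : ZMod 3, X = 0 → Y = 0 → ∃ z u v : ZMod 3, 2 * z + 3 ≠ 0 ∧
            (z + 3) ^ 2 ≠ Y ^ 2 ∧ X ^ 2 ≠ u ^ 2 ∧ u ^ 2 ≠ v ^ 2 ∧ v ^ 2 ≠ z ^ 2) _ _ h0 h0')
        exact ⟨w, by omega⟩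
      · obtain ⟨w, hw⟩ := path5 hPs hF hx1 hx2 hy1 hy2
          ((by decide : ∀ X Y : ZMod 2, X ^ 2 ≠ Y ^ 2 → ∃ u z v : ZMod 2, X ^ 2 ≠ u ^ 2 ∧
            u ^ 2 ≠ z ^ 2 ∧ 2 * z + 3 ≠ 0 ∧ (z + 3) ^ 2 ≠ v ^ 2 ∧ v ^ 2 ≠ Y ^ 2) _ _ h2)
          ((by decide : ∀ X Y : ZMod 3, X ^ 2 = Y ^ 2 → X ≠ 0 → ∃ u z v : ZMod 3,
            X ^ 2 ≠ u ^ 2 ∧ u ^ 2 ≠ z ^ 2 ∧ 2 * z + 3 ≠ 0 ∧ (z + 3) ^ 2 ≠ v ^ 2 ∧
            v ^ 2 ≠ Y ^ 2) _ _ h3 h0)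
        exact ⟨w, by omega⟩
    · obtain ⟨w, hw⟩ := path3 hF hx1 hx2 hy1 hy2
        ((by decide : ∀ X Y : ZMod 2, X ^ 2 ≠ Y ^ 2 → ∃ u v : ZMod 2, X ^ 2 ≠ u ^ 2 ∧
          u ^ 2 ≠ v ^ 2 ∧ v ^ 2 ≠ Y ^ 2) _ _ h2)
        ((by decide : ∀ X Y : ZMod 3, X ^ 2 ≠ Y ^ 2 → ∃ u v : ZMod 3, X ^ 2 ≠ u ^ 2 ∧
          u ^ 2 ≠ v ^ 2 ∧ v ^ 2 ≠ Y ^ 2) _ _ h3)
      exact ⟨w, by omega⟩

end Cases

section Lower

variable {V : Type} {H : SimpleGraph V} {val : V → ℕ} {T : ℕ → Prop}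

/-- neighbours are multiples of 3 -/
theorem three_dvd (hT3 : ∀ m, T m → 3 ∣ m → m = 3) {a t : ℕ} (ha : 4 ≤ a) (ha3 : ¬ 3 ∣ a)
    (h1 : ¬ T (2 * a + 3)) (h2 : ¬ T (2 * a - 3)) (hs : T (a + t))
    (hd : T ((a : ℤ) - t).natAbs) : 3 ∣ t := by
  by_contra ht
  by_cases h : 3 ∣ a + t
  · have := hT3 _ hs h
    omega
  · have ha4 : a % 3 = 1 ∨ a % 3 = 2 := by omega
    have ht4 : t % 3 = 1 ∨ t % 3 = 2 := by omega
    have hat : a % 3 = t % 3 := by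
      rcases ha4 with e1 | e1 <;> rcases ht4 with e2 | e2 <;> omega
    have h4 : t = a + 3 ∨ a = t + 3 := by
      rcases le_total a t with h' | h'
      · rw [show ((a : ℤ) - t).natAbs = t - a by omega] at hd
        have := hT3 _ hd (by omega)
        omega
      · rw [show ((a : ℤ) - t).natAbs = a - t by omega] at hd
        have := hT3 _ hd (by omega)
        omega
    rcases h4 with rfl | rfl
    · exact h1 (by rw [show 2 * a + 3 = a + (a + 3) by ring]; exact hs)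
    · exact h2 (by rw [show 2 * (t + 3) - 3 = t + 3 + t by omega]; exact hs)

theorem walk_parity (hT : ∀ m, T m → Odd m)
    (hadj : ∀ a b, H.Adj a b → T (val a + val b) ∧ T ((val a : ℤ) - val b).natAbs) :
    ∀ {a b : V} (w : H.Walk a b), (val a + w.length) % 2 = val b % 2
  | _, _, .nil => by simp
  | a, b, .cons (v := c) h w => by
    have h1 := walk_parity hT hadj w
    obtain ⟨k, hk⟩ := hT _ (hadj _ _ h).1
    rw [SimpleGraph.Walk.length_cons]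
    omega

/-- two vertices far from each other -/
theorem far (hT : ∀ m, T m → Odd m) (hT3 : ∀ m, T m → 3 ∣ m → m = 3)
    (hadj : ∀ a b, H.Adj a b → T (val a + val b) ∧ T ((val a : ℤ) - val b).natAbs)
    {x y : V} (hx : 4 ≤ val x) (hx3 : ¬ 3 ∣ val x) (hx0 : ¬ T (val x))
    (hx1 : ¬ T (2 * val x + 3)) (hx2 : ¬ T (2 * val x - 3)) (hxo : val x % 2 = 1)
    (hy : 4 ≤ val y) (hy3 : ¬ 3 ∣ val y) (hy0 : ¬ T (val y))
    (hy1 : ¬ T (2 * val y + 3)) (hy2 : ¬ T (2 * val y - 3)) (hyo : val y % 2 = 0)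
    (w : H.Walk x y) : 5 ≤ w.length := by
  have hpar := walk_parity hT hadj w
  by_contra hcon
  have hlen : w.length = 1 ∨ w.length = 3 := by omega
  match w, hpar, hcon, hlen with
  | .nil, _, _, hlen => simp at hlen
  | .cons h .nil, _, _, _ =>
    exact hy3 (three_dvd hT3 hx hx3 hx1 hx2 (hadj _ _ h).1 (hadj _ _ h).2)
  | .cons _ (.cons _ .nil), _, _, hlen => simp at hlen
  | .cons (v := s) h (.cons (v := t) h' (.cons h'' .nil)), _, _, _ =>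
    have h1 := three_dvd hT3 hx hx3 hx1 hx2 (hadj _ _ h).1 (hadj _ _ h).2
    have h2 := three_dvd hT3 hy hy3 hy1 hy2 (hadj _ _ h''.symm).1 (hadj _ _ h''.symm).2
    obtain ⟨h3, h4⟩ := hadj _ _ h'
    have h5 := hT3 _ h3 (by omega)
    have h6 := hT3 _ h4 (by omega)
    rcases Nat.eq_zero_or_pos (val s) with h7 | h7
    · have := (hadj _ _ h).1
      rw [h7, add_zero] at this
      exact hx0 this
    · have h8 : val t = 0 := by omega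
      have := (hadj _ _ h''.symm).1
      rw [h8, add_zero] at this
      exact hy0 this
  | .cons _ (.cons _ (.cons _ (.cons _ w'))), _, _, hlen =>
    simp only [SimpleGraph.Walk.length_cons] at hlen
    omega

/-- two vertices far from each other, without a vertex `0` -/
theorem far_pos (hT : ∀ m, T m → Odd m) (hT3 : ∀ m, T m → 3 ∣ m → m = 3)
    (hadj : ∀ a b, H.Adj a b → T (val a + val b) ∧ T ((val a : ℤ) - val b).natAbs)
    (hpos : ∀ a, 1 ≤ val a)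
    {x y : V} (hx : 4 ≤ val x) (hx3 : ¬ 3 ∣ val x)
    (hx1 : ¬ T (2 * val x + 3)) (hx2 : ¬ T (2 * val x - 3)) (hxo : val x % 2 = 1)
    (hy : 4 ≤ val y) (hy3 : ¬ 3 ∣ val y)
    (hy1 : ¬ T (2 * val y + 3)) (hy2 : ¬ T (2 * val y - 3)) (hyo : val y % 2 = 0)
    (w : H.Walk x y) : 5 ≤ w.length := by
  have hpar := walk_parity hT hadj w
  by_contra hcon
  have hlen : w.length = 1 ∨ w.length = 3 := by omega
  match w, hpar, hcon, hlen with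
  | .nil, _, _, hlen => simp at hlen
  | .cons h .nil, _, _, _ =>
    exact hy3 (three_dvd hT3 hx hx3 hx1 hx2 (hadj _ _ h).1 (hadj _ _ h).2)
  | .cons _ (.cons _ .nil), _, _, hlen => simp at hlen
  | .cons (v := s) h (.cons (v := t) h' (.cons h'' .nil)), _, _, _ =>
    have h1 := three_dvd hT3 hx hx3 hx1 hx2 (hadj _ _ h).1 (hadj _ _ h).2
    have h2 := three_dvd hT3 hy hy3 hy1 hy2 (hadj _ _ h''.symm).1 (hadj _ _ h''.symm).2
    obtain ⟨h3, h4⟩ := hadj _ _ h'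
    have h5 := hT3 _ h3 (by omega)
    have h6 := hpos s
    have h7 := hpos t
    omega
  | .cons _ (.cons _ (.cons _ (.cons _ w'))), _, _, hlen =>
    simp only [SimpleGraph.Walk.length_cons] at hlen
    omega

end Lower

section Sieve

open Pool.Agent.H373R2.T7

theorem prod_lower (h : ℕ → ℝ) (h1 : ∀ p : ℕ, p.Prime → p < 5 → 1 / (p : ℝ) ≤ h p)
    (h2 : ∀ p : ℕ, p.Prime → 5 ≤ p → 1 - 4 / (p : ℝ) ≤ h p) (Y : ℕ) :
    4 / (((Y : ℝ) + 4) * (Y + 3) * (Y + 2) * (Y + 1)) ≤ ∏ p ∈ pz (Y + 4), h p := by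
  have hpz : ∀ Z : ℕ, ∏ p ∈ pz Z, h p = ∏ k ∈ Finset.Icc 1 Z, if k.Prime then h k else 1 := by
    intro Z
    rw [pz, Finset.prod_filter]
  rw [hpz]
  induction Y with
  | zero =>
    have e : Finset.Icc 1 (0 + 4) = {1, 2, 3, 4} := by decide
    rw [e]
    rw [Finset.prod_insert (by decide), Finset.prod_insert (by decide),
      Finset.prod_insert (by decide), Finset.prod_singleton, if_neg (by norm_num),
      if_pos (by norm_num), if_pos (by norm_num), if_neg (by norm_num)]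
    have a1 := h1 2 (by norm_num) (by norm_num)
    have a2 := h1 3 (by norm_num) (by norm_num)
    norm_num at a1 a2 ⊢
    nlinarith
  | succ Y ih =>
    rw [show Y + 1 + 4 = Y + 4 + 1 by ring, Finset.prod_Icc_succ_top (by omega)]
    have hf : ((Y : ℝ) + 1) / (Y + 5) ≤ if (Y + 4 + 1).Prime then h (Y + 4 + 1) else 1 := by
      split_ifs with hp
      · refine le_trans (le_of_eq ?_) (h2 _ hp (by omega))
        push_cast
        field_simp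
        ring
      · rw [div_le_one (by positivity)]
        linarith
    have hf0 : 0 ≤ ((Y : ℝ) + 1) / (Y + 5) := by positivity
    refine le_trans (le_of_eq ?_) (mul_le_mul ih hf hf0 (le_trans (by positivity) ih))
    push_cast
    field_simp
    ring

theorem find_of_large : ∃ K N : ℕ, 9 ≤ K ∧ ∀ n y : ℕ, N ≤ n → y ^ K ≤ n → ∀ Ps : Finset ℕ,
    (∀ p ∈ Ps, p.Prime ∧ p ≠ 2 ∧ p ≤ y) → Find Ps n := by
  classical
  obtain ⟨K0, x0, hK0, hS⟩ := sys_fund 4 (by norm_num) (1 / 2) (by norm_num)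
  refine ⟨K0 + 9, (x0 + 10) ^ (K0 + 9), by omega, fun n y hn hy Ps hPs good hgood => ?_⟩
  obtain ⟨hg2, hg3, hg5⟩ := hgood
  obtain ⟨Y, hY0, hYy, hYn⟩ : ∃ Y, x0 + 10 ≤ Y ∧ y ≤ Y ∧ Y ^ (K0 + 9) ≤ n := by
    rcases le_total y (x0 + 10) with h | h
    · exact ⟨x0 + 10, le_refl _, h, hn⟩
    · exact ⟨y, h, le_refl _, hy⟩
  obtain ⟨Q, hQ⟩ : ∃ Q : ℕ → ℕ → Prop, ∀ p m, Q p m ↔ (p ∈ Mod Ps ∧ ¬ good p (m : ZMod p)) :=
    ⟨_, fun _ _ => Iff.rfl⟩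
  have hnu : ∀ p, p.Prime → (5 ≤ p → nuB Q p ≤ 4) ∧ (p < 5 → nuB Q p + 1 ≤ p) := by
    intro p hp
    constructor
    · intro h5
      obtain ⟨a, b, c, d, h⟩ := hg5 p hp h5
      have : NeZero p := ⟨hp.ne_zero⟩
      have hsub : (Finset.range p).filter (fun r => Q p r) ⊆ {a.val, b.val, c.val, d.val} := by
        intro r hr
        rw [Finset.mem_filter, Finset.mem_range] at hr
        obtain ⟨hr1, hr2⟩ := hr
        have h' := h (r : ZMod p)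
        have hval : ∀ e : ZMod p, (r : ZMod p) = e → r = e.val := by
          intro e he
          rw [← he, ZMod.val_natCast, Nat.mod_eq_of_lt hr1]
        simp only [Finset.mem_insert, Finset.mem_singleton]
        by_contra hcon
        push Not at hcon
        exact ((hQ _ _).mp hr2).2 (h' (fun e => hcon.1 (hval _ e)) (fun e => hcon.2.1 (hval _ e))
          (fun e => hcon.2.2.1 (hval _ e)) (fun e => hcon.2.2.2 (hval _ e)))
      unfold nuB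
      exact (Finset.card_le_card hsub).trans Finset.card_le_four
    · intro h5
      have hgp : ∃ u, good p u := by
        have h4 := hp.two_le
        have : p = 2 ∨ p = 3 ∨ p = 4 := by omega
        rcases this with rfl | rfl | rfl
        · exact hg2
        · exact hg3
        · exact absurd hp (by norm_num)
      obtain ⟨u, hu⟩ := hgp
      have : NeZero p := ⟨hp.ne_zero⟩
      have hsub : (Finset.range p).filter (fun r => Q p r) ⊆ (Finset.range p).erase u.val := by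
        intro r hr
        rw [Finset.mem_filter] at hr
        rw [Finset.mem_erase]
        refine ⟨?_, hr.1⟩
        rintro rfl
        apply ((hQ _ _).mp hr.2).2
        rw [ZMod.natCast_zmod_val]
        exact hu
      have h6 := Finset.card_le_card hsub
      rw [Finset.card_erase_of_mem (Finset.mem_range.mpr (ZMod.val_lt u)), Finset.card_range] at h6
      have h7 : nuB Q p ≤ p - 1 := by
        unfold nuB
        exact h6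
      have := hp.two_le
      omega
  have hper : PerB Q 4 := by
    refine ⟨fun p m => ?_, fun p hp => ?_⟩
    · rw [hQ, hQ, ZMod.natCast_mod]
    · rcases Nat.lt_or_ge p 5 with h | h
      · have := (hnu p hp).2 h
        omega
      · exact (hnu p hp).1 h
  have hYK0 : Y ^ K0 ≤ n := le_trans (Nat.pow_le_pow_right (by omega) (by omega)) hYn
  have hY9 : Y ^ 9 ≤ n := le_trans (Nat.pow_le_pow_right (by omega) (by omega)) hYn
  have hmain := hS n Y (by omega) hYK0 Q hper (n - 3)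
  set C := ((Finset.Icc 1 (n - 3)).filter (fun n : ℕ => ∀ p ∈ pz Y, ¬ Q p n)).card with hC
  set V := ∏ p ∈ pz Y, (1 - (nuB Q p : ℝ) / p) with hV
  have hVlow : 4 / (Y : ℝ) ^ 4 ≤ V := by
    have h1 := prod_lower (fun p => 1 - (nuB Q p : ℝ) / p) (by
      intro p hp h5
      have h6 := (hnu p hp).2 h5
      have hp0 : (0 : ℝ) < p := by exact_mod_cast hp.pos
      rw [div_le_iff₀ hp0, sub_mul, one_mul, div_mul_cancel₀ _ hp0.ne']
      have : ((nuB Q p + 1 : ℕ) : ℝ) ≤ p := by exact_mod_cast h6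
      push_cast at this
      linarith) (by
      intro p hp h5
      have h6 := (hnu p hp).1 h5
      have hp0 : (0 : ℝ) < p := by exact_mod_cast hp.pos
      have : (nuB Q p : ℝ) / p ≤ 4 / p := by
        apply div_le_div_of_nonneg_right _ hp0.le
        exact_mod_cast h6
      linarith) (Y - 4)
    have h2 : ((Y - 4 : ℕ) : ℝ) = (Y : ℝ) - 4 := by
      rw [Nat.cast_sub (by omega)]
      norm_num
    rw [h2, show Y - 4 + 4 = Y by omega] at h1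
    refine le_trans ?_ h1
    have hYr : (10 : ℝ) ≤ Y := by exact_mod_cast (by omega : 10 ≤ Y)
    apply div_le_div_of_nonneg_left (by norm_num)
    · apply mul_pos (mul_pos (mul_pos _ _) _) <;> linarith
    · have e : (Y : ℝ) ^ 4 = Y * Y * Y * Y := by ring
      rw [e]
      have b1 : (0 : ℝ) ≤ Y := by linarith
      have c1 : (Y : ℝ) - 4 + 4 ≤ Y := by linarith
      have c2 : (Y : ℝ) - 4 + 3 ≤ Y := by linarith
      have c3 : (Y : ℝ) - 4 + 2 ≤ Y := by linarith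
      have c4 : (Y : ℝ) - 4 + 1 ≤ Y := by linarith
      apply mul_le_mul (mul_le_mul (mul_le_mul c1 c2 _ b1) c3 _ (by positivity)) c4 _
        (by positivity) <;> linarith
  have hpos : 0 < C := by
    by_contra hcon
    have hC0 : (C : ℝ) = 0 := by
      have : C = 0 := by omega
      rw [this, Nat.cast_zero]
    rw [hC0, zero_sub, abs_neg] at hmain
    have hYr : (10 : ℝ) ≤ Y := by exact_mod_cast (by omega : 10 ≤ Y)
    have hn9 : (Y : ℝ) ^ 9 ≤ n := by exact_mod_cast hY9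
    have hV0 : 0 < V := lt_of_lt_of_le (by positivity) hVlow
    have hn10 : 10 ≤ n := by
      have : Y ≤ Y ^ 9 := Nat.le_self_pow (by norm_num) Y
      omega
    have hX : (n : ℝ) / 2 ≤ ((n - 3 : ℕ) : ℝ) := by
      rw [Nat.cast_sub (by omega)]
      have : (10 : ℝ) ≤ n := by exact_mod_cast hn10
      push_cast
      linarith
    have hn0 : (0 : ℝ) < n := by
      have : (10 : ℝ) ≤ n := by exact_mod_cast hn10
      linarith
    have h3 : ((n - 3 : ℕ) : ℝ) * V ≤ 1 / 2 * (((n - 3 : ℕ) : ℝ) * V) + √(n : ℝ) :=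
      le_trans (le_abs_self _) hmain
    have h4 : ((n - 3 : ℕ) : ℝ) * V ≤ 2 * √(n : ℝ) := by linarith
    have h5 : (n : ℝ) / 2 * (4 / (Y : ℝ) ^ 4) ≤ 2 * √(n : ℝ) :=
      le_trans (mul_le_mul hX hVlow (by positivity) (by positivity)) h4
    have h6 : √(n : ℝ) * √(n : ℝ) = n := Real.mul_self_sqrt hn0.le
    have h7 : 0 < √(n : ℝ) := Real.sqrt_pos.mpr hn0
    have h8 : √(n : ℝ) ≤ (Y : ℝ) ^ 4 := by
      have hY4 : (0 : ℝ) < (Y : ℝ) ^ 4 := by positivity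
      have h9 : (n : ℝ) / 2 * (4 / (Y : ℝ) ^ 4) = 2 * n / (Y : ℝ) ^ 4 := by
        field_simp
        ring
      rw [h9, div_le_iff₀ hY4] at h5
      have h10 : √(n : ℝ) * √(n : ℝ) ≤ √(n : ℝ) * (Y : ℝ) ^ 4 := by
        rw [h6]
        linarith
      exact le_of_mul_le_mul_left h10 h7
    have h11 : (n : ℝ) ≤ (Y : ℝ) ^ 8 := by
      calc (n : ℝ) = √(n : ℝ) * √(n : ℝ) := h6.symm
        _ ≤ (Y : ℝ) ^ 4 * (Y : ℝ) ^ 4 := mul_le_mul h8 h8 h7.le (by positivity)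
        _ = (Y : ℝ) ^ 8 := by ring
    have h12 : (Y : ℝ) ^ 8 < (Y : ℝ) ^ 9 := by
      have : (0 : ℝ) < (Y : ℝ) ^ 8 := by positivity
      nlinarith
    linarith
  obtain ⟨u, hu⟩ := Finset.card_pos.mp hpos
  rw [Finset.mem_filter, Finset.mem_Icc] at hu
  refine ⟨u, hu.1.1, by omega, fun p hp => ?_⟩
  have hpz : p ∈ pz Y := by
    rw [pz, Finset.mem_filter, Finset.mem_Icc]
    have hpm := hp
    simp only [Mod, Finset.mem_insert] at hp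
    rcases hp with rfl | rfl | hp
    · exact ⟨⟨by omega, by omega⟩, Nat.prime_two⟩
    · exact ⟨⟨by omega, by omega⟩, Nat.prime_three⟩
    · exact ⟨⟨(hPs p hp).1.one_lt.le, le_trans (hPs p hp).2.2 hYy⟩, (hPs p hp).1⟩
  have := hu.2 p hpz
  by_contra hcon
  exact this ((hQ _ _).mpr ⟨hp, hcon⟩)

end Sieve

/-- the near Goldbach graph `G(n)` -/
def near (n : ℕ) : SimpleGraph (Vtx n) where
  Adj a b := a ≠ b ∧ ((a.1 + b.1) / 2 = 1 ∨ ((a.1 + b.1) / 2).Prime ∧ (a.1 + b.1) / 2 ≠ 2 ∧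
      (a.1 + b.1) / 2 < 2 * n) ∧
    (((a.1 : ℤ) - b.1).natAbs / 2 = 1 ∨ (((a.1 : ℤ) - b.1).natAbs / 2).Prime ∧
      ((a.1 : ℤ) - b.1).natAbs / 2 ≠ 2 ∧ ((a.1 : ℤ) - b.1).natAbs / 2 < 2 * n)
  symm := ⟨fun a b h => by
    rw [add_comm b.1 a.1, ← Int.natAbs_neg ((b.1 : ℤ) - a.1), neg_sub]
    exact ⟨h.1.symm, h.2⟩⟩
  loopless := ⟨fun _ h => h.1 rfl⟩

/-- the finite Goldbach graph `G_n` on `{0, 2, …, 2n}` -/
def gold (n : ℕ) : SimpleGraph {a : ℕ // Even a ∧ a ≤ 2 * n} where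
  Adj a b := a ≠ b ∧ (((a.1 + b.1) / 2).Prime ∧ (a.1 + b.1) / 2 ≠ 2 ∧ (a.1 + b.1) / 2 < 2 * n) ∧
    ((((a.1 : ℤ) - b.1).natAbs / 2).Prime ∧ ((a.1 : ℤ) - b.1).natAbs / 2 ≠ 2 ∧
      ((a.1 : ℤ) - b.1).natAbs / 2 < 2 * n)
  symm := ⟨fun a b h => by
    rw [add_comm b.1 a.1, ← Int.natAbs_neg ((b.1 : ℤ) - a.1), neg_sub]
    exact ⟨h.1.symm, h.2⟩⟩
  loopless := ⟨fun _ h => h.1 rfl⟩

theorem far_near {n : ℕ} (hn : 59 ≤ n) (w : (near n).Walk (mk 59 (by norm_num) hn)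
    (mk 26 (by norm_num) (by omega))) : 5 ≤ w.length := by
  refine far_pos (val := fun a : Vtx n => a.1 / 2) (T := fun m => m = 1 ∨ m.Prime ∧ m ≠ 2)
    ?_ ?_ ?_ ?_ ?_ ?_ ?_ ?_ ?_ ?_ ?_ ?_ ?_ ?_ w
  · rintro m (rfl | ⟨h1, h2⟩)
    · exact ⟨0, rfl⟩
    · exact h1.odd_of_ne_two h2
  · rintro m (rfl | ⟨h1, h2⟩) h3
    · omega
    · exact ((Nat.prime_dvd_prime_iff_eq Nat.prime_three h1).mp h3).symm
  · intro a b h
    obtain ⟨-, h1, h2⟩ := h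
    obtain ⟨k, hk⟩ := a.2.1
    obtain ⟨l, hl⟩ := b.2.1
    have e1 : a.1 / 2 + b.1 / 2 = (a.1 + b.1) / 2 := by omega
    have e2 : (((a.1 / 2 : ℕ) : ℤ) - ((b.1 / 2 : ℕ) : ℤ)).natAbs =
        ((a.1 : ℤ) - b.1).natAbs / 2 := by omega
    simp only [e1, e2]
    tauto
  · intro a
    have := a.2.2.1
    show 1 ≤ a.1 / 2
    omega
  all_goals norm_num [mk]

theorem far_gold {n : ℕ} (hn : 125 ≤ n) (w : (gold n).Walk ⟨250, by decide, by omega⟩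
    ⟨52, by decide, by omega⟩) : 5 ≤ w.length := by
  refine far (val := fun a : {a : ℕ // Even a ∧ a ≤ 2 * n} => a.1 / 2)
    (T := fun m => m.Prime ∧ m ≠ 2) ?_ ?_ ?_ ?_ ?_ ?_ ?_ ?_ ?_ ?_ ?_ ?_ ?_ ?_ ?_ w
  · rintro m ⟨h1, h2⟩
    exact h1.odd_of_ne_two h2
  · rintro m ⟨h1, h2⟩ h3
    exact ((Nat.prime_dvd_prime_iff_eq Nat.prime_three h1).mp h3).symm
  · intro a b h
    obtain ⟨-, h1, h2⟩ := h
    obtain ⟨k, hk⟩ := a.2.1
    obtain ⟨l, hl⟩ := b.2.1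
    have e1 : a.1 / 2 + b.1 / 2 = (a.1 + b.1) / 2 := by omega
    have e2 : (((a.1 / 2 : ℕ) : ℤ) - ((b.1 / 2 : ℕ) : ℤ)).natAbs =
        ((a.1 : ℤ) - b.1).natAbs / 2 := by omega
    simp only [e1, e2]
    tauto
  all_goals norm_num

/-- the sieved graphs have two vertices without a path of length less than 5 -/
theorem far_inter {Ps : Finset ℕ} (h3 : 3 ∈ Ps) {p q : ℕ} (hp : p ∈ Ps) (hq : q ∈ Ps)
    (hpp : p.Prime) (hqp : q.Prime) (hp5 : 5 ≤ p) (hq5 : 5 ≤ q) (hpq : p ≠ q) {n : ℕ}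
    (hn : 12 * (p * q) ≤ n) : ∃ a b : Vtx n, ∀ w : (inter Ps n).Walk a b, 5 ≤ w.length := by
  set R : Finset ℕ := {2, 3, p, q} with hR
  have hRp : ∀ r ∈ R, r.Prime := by
    intro r hr
    simp only [hR, Finset.mem_insert, Finset.mem_singleton] at hr
    rcases hr with rfl | rfl | rfl | rfl
    · exact Nat.prime_two
    · exact Nat.prime_three
    · exact hpp
    · exact hqp
  have hprod : ∏ r ∈ R, r = 6 * (p * q) := by
    rw [hR, Finset.prod_insert, Finset.prod_insert, Finset.prod_pair hpq]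
    · ring
    · simp only [Finset.mem_insert, Finset.mem_singleton]
      omega
    · simp only [Finset.mem_insert, Finset.mem_singleton]
      omega
  have key : ∀ e : ℕ, e < 2 → ∃ x : ℕ, 6 * (p * q) < x ∧ x ≤ n ∧ x % 2 = e ∧ x % 3 = 1 ∧
      p ∣ 2 * x + 3 ∧ q ∣ 2 * x - 3 := by
    intro e he
    have hfp : Fact p.Prime := ⟨hpp⟩
    have hfq : Fact q.Prime := ⟨hqp⟩
    set c : (r : ℕ) → ZMod r := fun r => if r = 2 then (e : ZMod r) else if r = 3 then 1 else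
      if r = p then -3 * (2 : ZMod r)⁻¹ else 3 * (2 : ZMod r)⁻¹ with hc
    obtain ⟨u, hu1, hu2, hu⟩ := crt R hRp c
    rw [hprod] at hu2
    have h2ne : ∀ r : ℕ, r.Prime → 5 ≤ r → (2 : ZMod r) ≠ 0 := by
      intro r hr h5 h0
      have : ((2 : ℕ) : ZMod r) = 0 := by exact_mod_cast h0
      have := Nat.le_of_dvd (by norm_num) ((ZMod.natCast_eq_zero_iff _ _).mp this)
      omega
    have c2 : (u : ZMod 2) = (e : ZMod 2) := by
      rw [hu 2 (by simp [hR]), hc]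
      simp
    have c3 : (u : ZMod 3) = ((1 : ℕ) : ZMod 3) := by
      rw [hu 3 (by simp [hR]), hc]
      simp
    have cp : (u : ZMod p) = -3 * (2 : ZMod p)⁻¹ := by
      rw [hu p (by simp [hR])]
      simp only [hc]
      rw [if_neg (by omega), if_neg (by omega)]
      simp
    have cq : (u : ZMod q) = 3 * (2 : ZMod q)⁻¹ := by
      rw [hu q (by simp [hR])]
      simp only [hc]
      rw [if_neg (by omega), if_neg (by omega), if_neg hpq.symm]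
    have d2 := (ZMod.natCast_eq_natCast_iff' _ _ _).mp c2
    have d3 := (ZMod.natCast_eq_natCast_iff' _ _ _).mp c3
    have dp : p ∣ 2 * u + 3 := by
      rw [← ZMod.natCast_eq_zero_iff]
      push_cast
      rw [cp]
      have := h2ne p hpp hp5
      field_simp
      ring
    have dq : (q : ℤ) ∣ 2 * u - 3 := by
      rw [← ZMod.intCast_zmod_eq_zero_iff_dvd]
      push_cast
      rw [cq]
      have := h2ne q hqp hq5
      field_simp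
      ring
    refine ⟨u + 6 * (p * q), by omega, by omega, by omega, by omega, ?_, ?_⟩
    · obtain ⟨k, hk⟩ := dp
      exact ⟨k + 12 * q, by linear_combination hk⟩
    · have hpq25 : 25 ≤ p * q := Nat.mul_le_mul hp5 hq5
      rw [← Int.natCast_dvd_natCast, Nat.cast_sub (by omega)]
      obtain ⟨k, hk⟩ := dq
      refine ⟨k + 12 * p, ?_⟩
      push_cast
      linear_combination hk
  have hpq25 : 25 ≤ p * q := Nat.mul_le_mul hp5 hq5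
  have hpM : p ≤ p * q := Nat.le_mul_of_pos_right _ (by omega)
  have hqM : q ≤ p * q := Nat.le_mul_of_pos_left _ (by omega)
  obtain ⟨x, hx1, hx2, hx3, hx4, hx5, hx6⟩ := key 1 (by norm_num)
  obtain ⟨y, hy1, hy2, hy3, hy4, hy5, hy6⟩ := key 0 (by norm_num)
  refine ⟨mk x (by omega) hx2, mk y (by omega) hy2, fun w => ?_⟩
  have hval : ∀ z : ℕ, ∀ (h1 : 1 ≤ z) (h2 : z ≤ n), (mk z h1 h2 : Vtx n).1 / 2 = z := by
    intro z h1 h2
    simp only [mk]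
    omega
  have hbadp : ∀ z : ℕ, 6 * (p * q) < z → p ∣ 2 * z + 3 →
      ¬ ((2 * z + 3) ≠ 0 ∧ ∀ r ∈ Ps, OKp r n (2 * z + 3)) := by
    rintro z hz ⟨k, hk⟩ ⟨-, h⟩
    refine (h p hp).2.2 ⟨k, ?_, hk⟩
    by_contra hk1
    have : p * k ≤ p * 1 := Nat.mul_le_mul_left p (by omega)
    omega
  have hbadq : ∀ z : ℕ, 6 * (p * q) < z → q ∣ 2 * z - 3 →
      ¬ ((2 * z - 3) ≠ 0 ∧ ∀ r ∈ Ps, OKp r n (2 * z - 3)) := by
    rintro z hz ⟨k, hk⟩ ⟨-, h⟩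
    refine (h q hq).2.2 ⟨k, ?_, hk⟩
    by_contra hk1
    have : q * k ≤ q * 1 := Nat.mul_le_mul_left q (by omega)
    omega
  refine far_pos (val := fun a : Vtx n => a.1 / 2) (T := fun m => m ≠ 0 ∧ ∀ r ∈ Ps, OKp r n m)
    ?_ ?_ ?_ ?_ ?_ ?_ ?_ ?_ ?_ ?_ ?_ ?_ ?_ ?_ w
  · rintro m ⟨-, h⟩
    exact (h 3 h3).1
  · rintro m ⟨h0, h⟩ ⟨k, hk⟩
    have : ¬ 1 < k := fun h1 => (h 3 h3).2.2 ⟨k, h1, hk⟩
    omega
  · intro a b h
    obtain ⟨a', ha1, ha2, rfl⟩ := exists_mk a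
    obtain ⟨b', hb1, hb2, rfl⟩ := exists_mk b
    rw [adj_iff] at h
    simp only [hval]
    exact ⟨⟨by omega, fun r hr => (h.2 r hr).1⟩, ⟨by omega, fun r hr => (h.2 r hr).2⟩⟩
  · intro a
    obtain ⟨a', ha1, ha2, rfl⟩ := exists_mk a
    simp only [hval]
    omega
  all_goals simp only [hval]
  · omega
  · omega
  · exact hbadp x hx1 hx5
  · exact hbadq x hx1 hx6
  · omega
  · omega
  · omega
  · exact hbadp y hy1 hy5
  · exact hbadq y hy1 hy6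
  · omega

/-- **Main theorem.**  (1) There are `K` and `N` such that for all `n ≥ N` and every set `Ps` of odd
primes `p` with `p ^ K ≤ n` the edge-intersection of the graphs `G(p,n)`, `p ∈ Ps`, is connected with
diameter at most `5`, and exactly `5` if `3 ∈ Ps` and `Ps` has at least three elements.
(2), (3) For `n ≥ 59` the near Goldbach graph `G(n)`, and for `n ≥ 125` the Goldbach graph `G_n`,
have two vertices that are not joined by a walk of length less than `5`. -/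
theorem result :
    (∃ K N : ℕ, ∀ n : ℕ, N ≤ n → ∀ Ps : Finset ℕ, (∀ p ∈ Ps, p.Prime ∧ p ≠ 2 ∧ p ^ K ≤ n) →
      (inter Ps n).Connected ∧ (∀ a b, (inter Ps n).dist a b ≤ 5) ∧
      (3 ∈ Ps → 3 ≤ Ps.card → ∃ a b, (inter Ps n).dist a b = 5)) ∧
    (∀ n : ℕ, 59 ≤ n → ∃ a b, ∀ w : (near n).Walk a b, 5 ≤ w.length) ∧
    (∀ n : ℕ, 125 ≤ n → ∃ a b, ∀ w : (gold n).Walk a b, 5 ≤ w.length) := by
  refine ⟨?_, fun n hn => ⟨_, _, fun w => far_near hn w⟩, fun n hn => ⟨_, _, fun w => far_gold hn w⟩⟩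
  obtain ⟨K, N, hK, hmain⟩ := find_of_large
  refine ⟨K, N + 1, fun n hn Ps hPs => ?_⟩
  -- the largest `y` with `y ^ K ≤ n`
  obtain ⟨y, hy1, hy2⟩ : ∃ y, y ^ K ≤ n ∧ ∀ p ∈ Ps, p ≤ y := by
    rcases Ps.eq_empty_or_nonempty with rfl | hne
    · exact ⟨0, by rw [zero_pow (by omega)]; omega, by simp⟩
    · obtain ⟨m, hm1, hm2⟩ := Ps.exists_max_image id hne
      exact ⟨m, (hPs m hm1).2.2, hm2⟩
  have hF : Find Ps n := hmain n y (by omega) hy1 Ps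
    (fun p hp => ⟨(hPs p hp).1, (hPs p hp).2.1, hy2 p hp⟩)
  have hPs' : ∀ p ∈ Ps, p.Prime ∧ p ≠ 2 := fun p hp => ⟨(hPs p hp).1, (hPs p hp).2.1⟩
  have hconn : (inter Ps n).Connected := by
    have : Nonempty (Vtx n) := ⟨mk 1 le_rfl (by omega)⟩
    exact ⟨fun a b => (walk_le hPs' hF a b).choose.reachable⟩
  have hdist : ∀ a b, (inter Ps n).dist a b ≤ 5 := by
    intro a b
    obtain ⟨w, hw⟩ := walk_le hPs' hF a b
    exact (SimpleGraph.dist_le w).trans hw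
  refine ⟨hconn, hdist, fun h3 hcard => ?_⟩
  -- two further primes
  obtain ⟨p, hp, q, hq, hpq⟩ : ∃ p ∈ Ps.erase 3, ∃ q ∈ Ps.erase 3, p ≠ q := by
    have : 1 < (Ps.erase 3).card := by
      rw [Finset.card_erase_of_mem h3]
      omega
    exact Finset.one_lt_card.mp this
  rw [Finset.mem_erase] at hp hq
  have h5 : ∀ r ∈ Ps, r ≠ 3 → 5 ≤ r := by
    intro r hr hr3
    obtain ⟨h1, h2⟩ := hPs' r hr
    have h4 := h1.two_le
    by_contra hcon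
    have : r = 4 := by omega
    rw [this] at h1
    exact absurd h1 (by norm_num)
  have hp5 := h5 p hp.2 hp.1
  have hq5 := h5 q hq.2 hq.1
  have hn' : 12 * (p * q) ≤ n := by
    have h1 : p * q ≤ y * y := Nat.mul_le_mul (hy2 p hp.2) (hy2 q hq.2)
    have hy5 : 5 ≤ y := hp5.trans (hy2 p hp.2)
    have h2 : y ^ 4 ≤ y ^ K := Nat.pow_le_pow_right (by omega) (by omega)
    have h3 : 25 ≤ y * y := Nat.mul_le_mul hy5 hy5
    have h4 : y ^ 4 = (y * y) * (y * y) := by ring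
    have h5 : 25 * (y * y) ≤ (y * y) * (y * y) := Nat.mul_le_mul_right _ h3
    omega
  obtain ⟨a, b, hab⟩ := far_inter h3 hp.2 hq.2 (hPs' p hp.2).1 (hPs' q hq.2).1 hp5 hq5 hpq hn'
  obtain ⟨w, hw⟩ := hconn.exists_walk_length_eq_dist a b
  exact ⟨a, b, le_antisymm (hdist a b) (hw ▸ hab w)⟩

end Pool.Agent.Results.MP_443e5f_co.RoughDiameter
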